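import Mathlib

/-!
# A toroidal polyhedron whose faces need five colours (MP_c9efbf_co)

We exhibit sixteen convex polygons in `ℝ³`, meeting edge to edge, whose union is homeomorphic to the torus,
no two adjacent ones coplanar, such that the faces cannot be properly coloured with four colours.
The polyhedron is a convex body bounded by 13 planes, minus a tunnel with triangular cross-section.
-/

namespace Pool.Agent.Results.MP_c9efbf_co.FiveColours

open Set

/-- Three-dimensional space `ℝ³`, with its usual (product) topology. -/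
abbrev E3 := Fin 3 → ℝ

/-- `S` is a convex polygon: the convex hull of finitely many points that lie in a common plane but not on a
common line. -/
def IsConvexPolygon (S : Set E3) : Prop :=
  ∃ V : Finset E3, S = convexHull ℝ (V : Set E3) ∧ Coplanar ℝ (V : Set E3) ∧ ¬ Collinear ℝ (V : Set E3)

/-- `v` is a vertex (extreme point) of `S`. -/
def IsVertex (S : Set E3) (v : E3) : Prop := v ∈ S.extremePoints ℝ

/-- `T` is an edge of the polygon `S`: a nondegenerate segment that is an extreme subset of `S`. -/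
def IsEdge (S T : Set E3) : Prop := ∃ a b : E3, a ≠ b ∧ T = segment ℝ a b ∧ IsExtreme ℝ S T

/-- The sets `F i` are the faces of a toroidal polyhedron: each is a convex polygon, two different faces meet in
the empty set, in a common vertex or in a common edge, every edge of a face is an edge of exactly one other
face, two faces with a common edge are not coplanar, and the union of all faces is homeomorphic to the torus
`S¹ × S¹`. -/
structure IsToroidalPolyhedron {ι : Type} (F : ι → Set E3) : Prop where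
  finite : Finite ι
  polygon : ∀ i, IsConvexPolygon (F i)
  distinct : ∀ i j, i ≠ j → F i ≠ F j
  meet : ∀ i j, i ≠ j →
    F i ∩ F j = ∅ ∨
    (∃ v, F i ∩ F j = {v} ∧ IsVertex (F i) v ∧ IsVertex (F j) v) ∨
    (IsEdge (F i) (F i ∩ F j) ∧ IsEdge (F j) (F i ∩ F j))
  edge_to_edge : ∀ i T, IsEdge (F i) T → ∃! j, j ≠ i ∧ IsEdge (F j) T
  not_coplanar : ∀ i j, i ≠ j → (∃ T, IsEdge (F i) T ∧ IsEdge (F j) T) → ¬ Coplanar ℝ (F i ∪ F j)
  torus : Nonempty ((⋃ i, F i : Set E3) ≃ₜ (Circle × Circle))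

/-- The faces `F i` can be properly coloured with `k` colours: faces with a common edge get different colours. -/
def FaceColourable {ι : Type} (F : ι → Set E3) (k : ℕ) : Prop :=
  ∃ c : ι → Fin k, ∀ i j, i ≠ j → (∃ T, IsEdge (F i) T ∧ IsEdge (F j) T) → c i ≠ c j

/-! ## The combinatorial data -/

/-- Integer 4-vectors: affine functionals `a x + b y + c z + d`, or homogeneous points `(X, Y, Z, W)`. -/
abbrev Fn := ℤ × ℤ × ℤ × ℤ

/-- The 26 vertices in homogeneous integer coordinates `(X, Y, Z, W)`, `W > 0`. -/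
def vtList : List Fn := [
  (-76, -48, -51, 8),
  (-74, -66, -93, 11),
  (-38, -24, 23, 4),
  (-27, -24, 34, 4),
  (-17, -24, 34, 4),
  (-16, 111, -48, 11),
  (-4, 31, 5, 3),
  (-3, -12, -19, 2),
  (-1, 63, -3, 5),
  (1, 12, 0, 1),
  (4, 9, 3, 1),
  (7, -6, -1, 1),
  (7, -6, 4, 1),
  (8, -1, 1, 1),
  (17, -12, 4, 2),
  (-4, -3, 9, 1),
  (-1, -3, 9, 1),
  (4, -3, 7, 1),
  (1, 3, 9, 1),
  (0, 5, 7, 1),
  (-4, -3, -9, 1),
  (1, -3, -10, 1),
  (4, -3, -7, 1),
  (3, -1, -9, 1),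
  (1, 3, -9, 1),
  (0, 5, -8, 1)]

/-- The planes of the 16 faces (13 planes of the convex body, 3 planes of the tunnel). -/
def plList : List Fn := [
  (0, 1, -6, 57),
  (-2, 3, -5, 52),
  (-4, -1, -3, 34),
  (0, -1, -1, 12),
  (4, -3, -4, 43),
  (1, 0, 5, 49),
  (-1, 1, 1, 14),
  (-2, 0, 1, 15),
  (-2, -1, 1, 14),
  (-1, -1, 1, 13),
  (3, -2, 4, 42),
  (2, -1, 0, 13),
  (0, 1, 0, 6),
  (0, -1, 0, -3),
  (2, 1, 0, -5),
  (-2, 1, 0, -5)]

/-- The vertices of each face, in cyclic order. -/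
def fcList : List (List ℕ) := [
  [3, 4, 16, 15],
  [4, 12, 17, 16],
  [10, 13, 14, 12, 17, 18],
  [6, 8, 9, 10, 18, 19],
  [2, 3, 15, 19, 6],
  [1, 7, 21, 20],
  [7, 11, 22, 21],
  [11, 14, 13, 23, 22],
  [9, 10, 13, 23, 24],
  [5, 8, 9, 24, 25],
  [0, 1, 20, 25, 5],
  [0, 2, 6, 8, 5],
  [0, 1, 7, 11, 14, 12, 4, 3, 2],
  [15, 16, 17, 22, 21, 20],
  [17, 18, 19, 25, 24, 23, 22],
  [15, 19, 25, 20]]

/-- The corners `(u, v, w, g, h)` of each face: `u, v, w` are consecutive vertices, the edge `uv` lies in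
plane `g`, the edge `vw` lies in plane `h`. -/
def cnList : List (List (ℕ × ℕ × ℕ × ℕ × ℕ)) := [
  [(15, 3, 4, 4, 12), (3, 4, 16, 12, 1), (4, 16, 15, 1, 13), (16, 15, 3, 13, 4)],
  [(16, 4, 12, 0, 12), (4, 12, 17, 12, 2), (12, 17, 16, 2, 13), (17, 16, 4, 13, 0)],
  [(18, 10, 13, 3, 8), (10, 13, 14, 8, 7), (13, 14, 12, 7, 12), (14, 12, 17, 12, 1), (12, 17, 18, 1, 14), (17, 18, 10, 14, 3)],
  [(19, 6, 8, 4, 11), (6, 8, 9, 11, 9), (8, 9, 10, 9, 8), (9, 10, 18, 8, 2), (10, 18, 19, 2, 14), (18, 19, 6, 14, 4)],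
  [(6, 2, 3, 11, 12), (2, 3, 15, 12, 0), (3, 15, 19, 0, 15), (15, 19, 6, 15, 3), (19, 6, 2, 3, 11)],
  [(20, 1, 7, 10, 12), (1, 7, 21, 12, 6), (7, 21, 20, 6, 13), (21, 20, 1, 13, 10)],
  [(21, 7, 11, 5, 12), (7, 11, 22, 12, 7), (11, 22, 21, 7, 13), (22, 21, 7, 13, 5)],
  [(22, 11, 14, 6, 12), (11, 14, 13, 12, 2), (14, 13, 23, 2, 8), (13, 23, 22, 8, 14), (23, 22, 11, 14, 6)],
  [(24, 9, 10, 9, 3), (9, 10, 13, 3, 2), (10, 13, 23, 2, 7), (13, 23, 24, 7, 14), (23, 24, 9, 14, 9)],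
  [(25, 5, 8, 10, 11), (5, 8, 9, 11, 3), (8, 9, 24, 3, 8), (9, 24, 25, 8, 14), (24, 25, 5, 14, 10)],
  [(5, 0, 1, 11, 12), (0, 1, 20, 12, 5), (1, 20, 25, 5, 15), (20, 25, 5, 15, 9), (25, 5, 0, 9, 11)],
  [(5, 0, 2, 10, 12), (0, 2, 6, 12, 4), (2, 6, 8, 4, 3), (6, 8, 5, 3, 9), (8, 5, 0, 9, 10)],
  [(2, 0, 1, 11, 10), (0, 1, 7, 10, 5), (1, 7, 11, 5, 6), (7, 11, 14, 6, 7), (11, 14, 12, 7, 2), (14, 12, 4, 2, 1), (12, 4, 3, 1, 0), (4, 3, 2, 0, 4), (3, 2, 0, 4, 11)],
  [(20, 15, 16, 15, 0), (15, 16, 17, 0, 1), (16, 17, 22, 1, 14), (17, 22, 21, 14, 6), (22, 21, 20, 6, 5), (21, 20, 15, 5, 15)],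
  [(22, 17, 18, 13, 2), (17, 18, 19, 2, 3), (18, 19, 25, 3, 15), (19, 25, 24, 15, 9), (25, 24, 23, 9, 8), (24, 23, 22, 8, 7), (23, 22, 17, 7, 13)],
  [(20, 15, 19, 13, 4), (15, 19, 25, 4, 14), (19, 25, 20, 14, 10), (25, 20, 15, 10, 13)]]

/-- Separating functionals: entry `(i, j)` is `≥ 0` on face `i`, `≤ 0` on face `j`. -/
def laList : List (List Fn) := [
  [(0, 0, 0, 0), (-2, 2, 1, -5), (-4, -2, 3, -23), (0, -2, 5, -45), (4, -4, 2, -14), (1, -1, 11, -8), (-1, 0, 7, -43), (-2, -1, 7, -42), (-2, -2, 7, -43), (-1, -2, 7, -44), (3, -3, 10, -15), (2, -2, 6, -44), (0, 0, 6, -51), (0, -2, 6, -60), (-2, -2, 6, -52), (2, -3, 6, -55)],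
  [(2, -2, -1, 5), (0, 0, 0, 0), (-2, -4, 2, -18), (2, -4, 4, -40), (6, -6, 1, -9), (3, -3, 10, -3), (1, -2, 6, -38), (0, -3, 6, -37), (0, -4, 6, -38), (1, -4, 6, -39), (5, -5, 9, -10), (4, -4, 5, -39), (2, -2, 5, -46), (2, -4, 5, -55), (0, -6, 5, -53), (4, -4, 5, -47)],
  [(4, 2, -3, 23), (2, 4, -2, 18), (0, 0, 0, 0), (4, 0, 2, -22), (8, -2, -1, 9), (5, 1, 8, 15), (3, 2, 4, -20), (2, 1, 4, -19), (2, 0, 4, -20), (3, 0, 4, -21), (7, -1, 7, 8), (6, 0, 3, -21), (4, 2, 3, -28), (8, 4, 3, -41), (6, 2, 3, -39), (6, 0, 3, -29)],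
  [(0, 2, -5, 45), (-2, 4, -4, 40), (-4, 0, -2, 22), (0, 0, 0, 0), (4, -2, -3, 31), (1, 1, 6, 37), (-1, 2, 2, 2), (-2, 1, 2, 3), (-2, 0, 2, 2), (-1, 0, 2, 1), (3, -1, 5, 30), (2, 0, 1, 1), (0, 2, 1, -6), (0, 2, 1, -9), (2, 2, 1, -17), (10, 4, 1, -27)],
  [(-4, 4, -2, 14), (-6, 6, -1, 9), (-8, 2, 1, -9), (-4, 2, 3, -31), (0, 0, 0, 0), (-3, 3, 9, 6), (-5, 4, 5, -29), (-6, 3, 5, -28), (-6, 2, 5, -29), (-5, 2, 5, -30), (-1, 1, 8, -1), (-2, 2, 4, -30), (-4, 4, 4, -37), (-8, 6, 4, -50), (-8, 3, 4, -43), (-6, 4, 4, -48)],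
  [(-1, 1, -11, 8), (-3, 3, -10, 3), (-5, -1, -8, -15), (-1, -1, -6, -37), (3, -3, -9, -6), (0, 0, 0, 0), (-2, 1, -4, -35), (-3, 0, -4, -34), (-3, -1, -4, -35), (-2, -1, -4, -36), (2, -2, -1, -7), (1, -1, -5, -36), (-1, 1, -5, -43), (-1, -1, -5, -52), (-3, -1, -5, -44), (1, -2, -5, -47)],
  [(1, 0, -7, 43), (-1, 2, -6, 38), (-3, -2, -4, 20), (1, -2, -2, -2), (5, -4, -5, 29), (2, -1, 4, 35), (0, 0, 0, 0), (-1, -1, 0, 1), (-1, -2, 0, 0), (0, -2, 0, -1), (4, -3, 3, 28), (3, -2, -1, -1), (1, 0, -1, -8), (1, -2, -1, -17), (-1, -4, -1, -15), (3, -2, -1, -9)],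
  [(2, 1, -7, 42), (0, 3, -6, 37), (-2, -1, -4, 19), (2, -1, -2, -3), (6, -3, -5, 28), (3, 0, 4, 34), (1, 1, 0, -1), (0, 0, 0, 0), (0, -1, 0, -1), (1, -1, 0, -2), (5, -2, 3, 27), (4, -1, -1, -2), (2, 1, -1, -9), (6, 3, -1, -22), (4, 1, -1, -20), (4, -1, -1, -10)],
  [(2, 2, -7, 43), (0, 4, -6, 38), (-2, 0, -4, 20), (2, 0, -2, -2), (6, -2, -5, 29), (3, 1, 4, 35), (1, 2, 0, 0), (0, 1, 0, 1), (0, 0, 0, 0), (1, 0, 0, -1), (5, -1, 3, 28), (4, 0, -1, -1), (2, 2, -1, -8), (2, 2, -1, -11), (4, 2, -1, -19), (6, 1, -1, -14)],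
  [(1, 2, -7, 44), (-1, 4, -6, 39), (-3, 0, -4, 21), (1, 0, -2, -1), (5, -2, -5, 30), (2, 1, 4, 36), (0, 2, 0, 1), (-1, 1, 0, 2), (-1, 0, 0, 1), (0, 0, 0, 0), (4, -1, 3, 29), (3, 0, -1, 0), (1, 2, -1, -7), (1, 2, -1, -10), (3, 2, -1, -18), (11, 4, -1, -28)],
  [(-3, 3, -10, 15), (-5, 5, -9, 10), (-7, 1, -7, -8), (-3, 1, -5, -30), (1, -1, -8, 1), (-2, 2, 1, 7), (-4, 3, -3, -28), (-5, 2, -3, -27), (-5, 1, -3, -28), (-4, 1, -3, -29), (0, 0, 0, 0), (-1, 1, -4, -29), (-3, 3, -4, -36), (-7, 5, -4, -49), (-7, 2, -4, -42), (-5, 3, -4, -47)],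
  [(-2, 2, -6, 44), (-4, 4, -5, 39), (-6, 0, -3, 21), (-2, 0, -1, -1), (2, -2, -4, 30), (-1, 1, 5, 36), (-3, 2, 1, 1), (-4, 1, 1, 2), (-4, 0, 1, 1), (-3, 0, 1, 0), (1, -1, 4, 29), (0, 0, 0, 0), (-2, 2, 0, -7), (-4, 2, 0, -18), (-4, 2, 0, -18), (-4, 2, 0, -18)],
  [(0, 0, -6, 51), (-2, 2, -5, 46), (-4, -2, -3, 28), (0, -2, -1, 6), (4, -4, -4, 37), (1, -1, 5, 43), (-1, 0, 1, 8), (-2, -1, 1, 9), (-2, -2, 1, 8), (-1, -2, 1, 7), (3, -3, 4, 36), (2, -2, 0, 7), (0, 0, 0, 0), (0, -2, 0, -9), (0, -2, 0, -9), (0, -2, 0, -9)],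
  [(0, 2, -6, 60), (-2, 4, -5, 55), (-8, -4, -3, 41), (0, -2, -1, 9), (8, -6, -4, 50), (1, 1, 5, 52), (-1, 2, 1, 17), (-6, -3, 1, 22), (-2, -2, 1, 11), (-1, -2, 1, 10), (7, -5, 4, 49), (4, -2, 0, 18), (0, 2, 0, 9), (0, 0, 0, 0), (-2, -2, 0, 2), (2, -2, 0, 2)],
  [(2, 2, -6, 52), (0, 6, -5, 53), (-6, -2, -3, 39), (-2, -2, -1, 17), (8, -3, -4, 43), (3, 1, 5, 44), (1, 4, 1, 15), (-4, -1, 1, 20), (-4, -2, 1, 19), (-3, -2, 1, 18), (7, -2, 4, 42), (4, -2, 0, 18), (0, 2, 0, 9), (2, 2, 0, -2), (0, 0, 0, 0), (4, 0, 0, 0)],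
  [(-2, 3, -6, 55), (-4, 4, -5, 47), (-6, 0, -3, 29), (-10, -4, -1, 27), (6, -4, -4, 48), (-1, 2, 5, 47), (-3, 2, 1, 9), (-4, 1, 1, 10), (-6, -1, 1, 14), (-11, -4, 1, 28), (5, -3, 4, 47), (4, -2, 0, 18), (0, 2, 0, 9), (-2, 2, 0, -2), (-4, 0, 0, 0), (0, 0, 0, 0)]]

/-- Neighbours of each face. -/
def nbList : List (List ℕ) := [
  [1, 4, 12, 13],
  [0, 2, 12, 13],
  [1, 3, 7, 8, 12, 14],
  [2, 4, 8, 9, 11, 14],
  [0, 3, 11, 12, 15],
  [6, 10, 12, 13],
  [5, 7, 12, 13],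
  [2, 6, 8, 12, 14],
  [2, 3, 7, 9, 14],
  [3, 8, 10, 11, 14],
  [5, 9, 11, 12, 15],
  [3, 4, 9, 10, 12],
  [0, 1, 2, 4, 5, 6, 7, 10, 11],
  [0, 1, 5, 6, 14, 15],
  [2, 3, 7, 8, 9, 13, 15],
  [4, 10, 13, 14]]
def vt (k : ℕ) : Fn := vtList.getD k (0, 0, 0, 1)
def pl (i : ℕ) : Fn := plList.getD i (0, 0, 0, 0)
def fc (i : ℕ) : List ℕ := fcList.getD i []
def cn (i : ℕ) : List (ℕ × ℕ × ℕ × ℕ × ℕ) := cnList.getD i []
def la (i j : ℕ) : Fn := (laList.getD i []).getD j (0, 0, 0, 0)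
def nb (i : ℕ) : List ℕ := nbList.getD i []

/-- Value of a functional at a homogeneous point. -/
def iev (l v : Fn) : ℤ := l.1 * v.1 + l.2.1 * v.2.1 + l.2.2.1 * v.2.2.1 + l.2.2.2 * v.2.2.2

/-- Value of a functional at a real point. -/
def lev (l : Fn) (p : E3) : ℝ := l.1 * p 0 + l.2.1 * p 1 + l.2.2.1 * p 2 + l.2.2.2

/-- The linear part of a functional. -/
def lin (l : Fn) (p : E3) : ℝ := l.1 * p 0 + l.2.1 * p 1 + l.2.2.1 * p 2

/-- The real point with number `k`. -/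
noncomputable def pt (k : ℕ) : E3 :=
  ![(vt k).1 / (vt k).2.2.2, (vt k).2.1 / (vt k).2.2.2, (vt k).2.2.1 / (vt k).2.2.2]

theorem vt_pos (k : ℕ) : 0 < (vt k).2.2.2 := by
  by_cases h : k < 26
  · interval_cases k <;> decide
  · have : vt k = (0, 0, 0, 1) := by
      unfold vt
      apply List.getD_eq_default
      simp only [vtList, List.length_cons, List.length_nil]
      omega
    rw [this]; decide

theorem vt_posR (k : ℕ) : (0 : ℝ) < ((vt k).2.2.2 : ℝ) := by exact_mod_cast vt_pos k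

theorem lev_pt (l : Fn) (k : ℕ) : lev l (pt k) * ((vt k).2.2.2 : ℝ) = (iev l (vt k) : ℝ) := by
  have h := vt_posR k
  have h' : ((vt k).2.2.2 : ℝ) ≠ 0 := ne_of_gt h
  simp only [lev, pt, iev, Matrix.cons_val_zero, Matrix.cons_val_one, Matrix.cons_val]
  push_cast
  field_simp

theorem lev_pt_nonneg {l : Fn} {k : ℕ} (h : 0 ≤ iev l (vt k)) : 0 ≤ lev l (pt k) := by
  have h1 := lev_pt l k
  have h2 : (0 : ℝ) ≤ (iev l (vt k) : ℝ) := by exact_mod_cast h
  by_contra hc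
  push Not at hc
  have := mul_neg_of_neg_of_pos hc (vt_posR k)
  linarith

theorem lev_pt_pos {l : Fn} {k : ℕ} (h : 0 < iev l (vt k)) : 0 < lev l (pt k) := by
  have h1 := lev_pt l k
  have h2 : (0 : ℝ) < (iev l (vt k) : ℝ) := by exact_mod_cast h
  by_contra hc
  push Not at hc
  have := mul_nonpos_of_nonpos_of_nonneg hc (vt_posR k).le
  linarith

theorem lev_pt_zero {l : Fn} {k : ℕ} (h : iev l (vt k) = 0) : lev l (pt k) = 0 := by
  have h1 := lev_pt l k
  rw [h] at h1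
  simpa [ne_of_gt (vt_posR k)] using h1

theorem lev_pt_eq_zero {l : Fn} {k : ℕ} (h : lev l (pt k) = 0) : iev l (vt k) = 0 := by
  have h1 := lev_pt l k
  rw [h, zero_mul] at h1
  exact_mod_cast h1.symm

theorem lev_comb (l : Fn) (x y : E3) (a b : ℝ) (hab : a + b = 1) :
    lev l (a • x + b • y) = a * lev l x + b * lev l y := by
  simp only [lev, Pi.add_apply, Pi.smul_apply, smul_eq_mul]
  linear_combination (-(l.2.2.2 : ℝ)) * hab

theorem lev_sub (l : Fn) (x y : E3) : lin l (x - y) = lev l x - lev l y := by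
  simp only [lev, lin, Pi.sub_apply]; ring

/-- The set of vertices of face `i`. -/
def VS (i : ℕ) : Set E3 := pt '' {k | k ∈ fc i}

/-- Face `i`. -/
def FS (i : ℕ) : Set E3 := convexHull ℝ (VS i)

theorem hull_nonneg {l : Fn} {i : ℕ} (h : ∀ k ∈ fc i, 0 ≤ iev l (vt k)) : ∀ p ∈ FS i, 0 ≤ lev l p := by
  have : FS i ⊆ {p | 0 ≤ lev l p} := by
    apply convexHull_min
    · rintro _ ⟨k, hk, rfl⟩
      exact lev_pt_nonneg (h k hk)
    · intro x hx y hy a b ha hb hab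
      have hx' : 0 ≤ lev l x := hx
      have hy' : 0 ≤ lev l y := hy
      change 0 ≤ lev l (a • x + b • y)
      rw [lev_comb l x y a b hab]
      positivity
  exact fun p hp => this hp

/-- The negated functional. -/
def ng (l : Fn) : Fn := (-l.1, -l.2.1, -l.2.2.1, -l.2.2.2)

theorem lev_ng (l : Fn) (p : E3) : lev (ng l) p = - lev l p := by
  simp only [lev, ng]; push_cast; ring

theorem iev_ng (l v : Fn) : iev (ng l) v = - iev l v := by
  simp only [iev, ng]; ring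

theorem hull_nonpos {l : Fn} {i : ℕ} (h : ∀ k ∈ fc i, iev l (vt k) ≤ 0) : ∀ p ∈ FS i, lev l p ≤ 0 := by
  intro p hp
  have := hull_nonneg (l := ng l) (i := i) (fun k hk => by rw [iev_ng]; have := h k hk; omega) p hp
  rw [lev_ng] at this; linarith

theorem hull_zero {l : Fn} {i : ℕ} (h : ∀ k ∈ fc i, iev l (vt k) = 0) : ∀ p ∈ FS i, lev l p = 0 := by
  intro p hp
  have h1 := hull_nonneg (l := l) (i := i) (fun k hk => (h k hk).ge) p hp
  have h2 := hull_nonpos (l := l) (i := i) (fun k hk => (h k hk).le) p hp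
  linarith

/-- A point of a face where a nonnegative functional vanishes is in the hull of the vertices where it
vanishes. -/
theorem hull_face {l : Fn} {i : ℕ} (h : ∀ k ∈ fc i, 0 ≤ iev l (vt k)) {p : E3} (hp : p ∈ FS i)
    (h0 : lev l p = 0) : p ∈ convexHull ℝ (pt '' {k | k ∈ fc i ∧ iev l (vt k) = 0}) := by
  have key : FS i ⊆ {p | 0 ≤ lev l p ∧
      (lev l p = 0 → p ∈ convexHull ℝ (pt '' {k | k ∈ fc i ∧ iev l (vt k) = 0}))} := by
    apply convexHull_min
    · rintro _ ⟨k, hk, rfl⟩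
      refine ⟨lev_pt_nonneg (h k hk), fun h0 => ?_⟩
      exact subset_convexHull ℝ _ ⟨k, ⟨hk, lev_pt_eq_zero h0⟩, rfl⟩
    · intro x hx y hy a b ha hb hab
      obtain ⟨hx1, hx2⟩ := hx
      obtain ⟨hy1, hy2⟩ := hy
      refine ⟨?_, fun h0 => ?_⟩
      · rw [lev_comb l x y a b hab]; positivity
      · rw [lev_comb l x y a b hab] at h0
        have e1 : a * lev l x = 0 := by nlinarith [mul_nonneg ha hx1, mul_nonneg hb hy1]
        have e2 : b * lev l y = 0 := by nlinarith [mul_nonneg ha hx1, mul_nonneg hb hy1]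
        rcases eq_or_ne a 0 with rfl | ha0
        · have hb1 : b = 1 := by linarith
          subst hb1
          have : lev l y = 0 := by linarith
          simpa using hy2 this
        · rcases eq_or_ne b 0 with rfl | hb0
          · have ha1 : a = 1 := by linarith
            subst ha1
            have : lev l x = 0 := by linarith
            simpa using hx2 this
          · have h1 : lev l x = 0 := by
              rcases mul_eq_zero.mp e1 with h | h
              · exact absurd h ha0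
              · exact h
            have h2 : lev l y = 0 := by
              rcases mul_eq_zero.mp e2 with h | h
              · exact absurd h hb0
              · exact h
            exact convex_convexHull ℝ _ (hx2 h1) (hy2 h2) ha hb hab
  exact (key hp).2 h0

/-! ## Pairs of faces -/

/-- Common vertices of faces `i` and `j`. -/
def com (i j : ℕ) : List ℕ := (fc i).filter (fun k => decide (k ∈ fc j))

theorem mem_com {i j k : ℕ} : k ∈ com i j ↔ k ∈ fc i ∧ k ∈ fc j := by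
  simp [com]

/-- The check of the separating functional of a pair. -/
def checkPair (i j : ℕ) : Bool :=
  ((fc i).all fun k => decide (0 ≤ iev (la i j) (vt k)) &&
    (decide (iev (la i j) (vt k) = 0) == decide (k ∈ fc j))) &&
  ((fc j).all fun k => decide (iev (la i j) (vt k) ≤ 0) &&
    (decide (iev (la i j) (vt k) = 0) == decide (k ∈ fc i)))

theorem checkPair_all : ∀ i < 16, ∀ j < 16, i ≠ j → checkPair i j = true := by
  decide +kernel

theorem pair_data {i j : ℕ} (hi : i < 16) (hj : j < 16) (hij : i ≠ j) :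
    (∀ k ∈ fc i, 0 ≤ iev (la i j) (vt k)) ∧ (∀ k ∈ fc i, iev (la i j) (vt k) = 0 ↔ k ∈ fc j) ∧
    (∀ k ∈ fc j, iev (la i j) (vt k) ≤ 0) ∧ (∀ k ∈ fc j, iev (la i j) (vt k) = 0 ↔ k ∈ fc i) := by
  have h := checkPair_all i hi j hj hij
  simp only [checkPair, Bool.and_eq_true, List.all_eq_true, decide_eq_true_eq, beq_iff_eq,
    decide_eq_decide] at h
  exact ⟨fun k hk => (h.1 k hk).1, fun k hk => (h.1 k hk).2, fun k hk => (h.2 k hk).1,
    fun k hk => (h.2 k hk).2⟩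

theorem inter_eq {i j : ℕ} (hi : i < 16) (hj : j < 16) (hij : i ≠ j) :
    FS i ∩ FS j = convexHull ℝ (pt '' {k | k ∈ com i j}) := by
  obtain ⟨h1, h2, h3, h4⟩ := pair_data hi hj hij
  apply Subset.antisymm
  · rintro p ⟨hp1, hp2⟩
    have a1 := hull_nonneg h1 p hp1
    have a2 := hull_nonpos h3 p hp2
    have a3 : lev (la i j) p = 0 := le_antisymm a2 a1
    have := hull_face h1 hp1 a3
    refine convexHull_mono ?_ this
    apply image_mono
    rintro k ⟨hk1, hk2⟩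
    exact mem_com.mpr ⟨hk1, (h2 k hk1).mp hk2⟩
  · apply subset_inter
    · apply convexHull_mono
      apply image_mono
      intro k hk
      exact (mem_com.mp hk).1
    · apply convexHull_mono
      apply image_mono
      intro k hk
      exact (mem_com.mp hk).2

theorem inter_left {i j : ℕ} (hi : i < 16) (hj : j < 16) (hij : i ≠ j) :
    FS i ∩ FS j = {p | p ∈ FS i ∧ lev (la i j) p = 0} := by
  obtain ⟨h1, h2, h3, h4⟩ := pair_data hi hj hij
  apply Subset.antisymm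
  · rintro p ⟨hp1, hp2⟩
    exact ⟨hp1, le_antisymm (hull_nonpos h3 p hp2) (hull_nonneg h1 p hp1)⟩
  · rintro p ⟨hp1, hp2⟩
    rw [inter_eq hi hj hij]
    refine convexHull_mono ?_ (hull_face h1 hp1 hp2)
    apply image_mono
    rintro k ⟨hk1, hk2⟩
    exact mem_com.mpr ⟨hk1, (h2 k hk1).mp hk2⟩

theorem extreme_of_nonneg {l : Fn} {S : Set E3} (h : ∀ p ∈ S, 0 ≤ lev l p) :
    IsExtreme ℝ S {p | p ∈ S ∧ lev l p = 0} := by
  refine ⟨fun p hp => hp.1, ?_⟩
  rintro x hx y hy z ⟨hz, hz0⟩ ⟨a, b, ha, hb, hab, rfl⟩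
  rw [lev_comb l x y a b hab] at hz0
  have hx1 := h x hx
  have hy1 := h y hy
  refine ⟨hx, ?_⟩
  have e1 : a * lev l x = 0 := by nlinarith [mul_nonneg ha.le hx1, mul_nonneg hb.le hy1]
  rcases mul_eq_zero.mp e1 with h | h
  · exact absurd h ha.ne'
  · exact h

theorem inter_extreme {i j : ℕ} (hi : i < 16) (hj : j < 16) (hij : i ≠ j) :
    IsExtreme ℝ (FS i) (FS i ∩ FS j) := by
  rw [inter_left hi hj hij]
  exact extreme_of_nonneg (hull_nonneg (pair_data hi hj hij).1)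
/-! ## Vertices and edges -/

theorem com_len : ∀ i < 16, ∀ j < 16, i ≠ j → (com i j).length ≤ 2 := by decide +kernel

/-- Two homogeneous points are visibly different. -/
def diffPt (a b : ℕ) : Bool :=
  decide ((vt a).1 * (vt b).2.2.2 ≠ (vt b).1 * (vt a).2.2.2) ||
  decide ((vt a).2.1 * (vt b).2.2.2 ≠ (vt b).2.1 * (vt a).2.2.2) ||
  decide ((vt a).2.2.1 * (vt b).2.2.2 ≠ (vt b).2.2.1 * (vt a).2.2.2)

theorem diffPt_all : ∀ a < 26, ∀ b < 26, a ≠ b → diffPt a b = true := by decide +kernel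

theorem pt_ne {a b : ℕ} (ha : a < 26) (hb : b < 26) (hab : a ≠ b) : pt a ≠ pt b := by
  intro h
  have hd := diffPt_all a ha b hb hab
  have pa := vt_posR a
  have pb := vt_posR b
  have pa' : ((vt a).2.2.2 : ℝ) ≠ 0 := pa.ne'
  have pb' : ((vt b).2.2.2 : ℝ) ≠ 0 := pb.ne'
  have h0 := congrFun h 0
  have h1 := congrFun h 1
  have h2 := congrFun h 2
  simp only [pt, Matrix.cons_val_zero, Matrix.cons_val_one, Matrix.cons_val] at h0 h1 h2
  rw [div_eq_div_iff pa' pb'] at h0 h1 h2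
  simp only [diffPt, Bool.or_eq_true, decide_eq_true_eq] at hd
  rcases hd with (hd | hd) | hd
  · exact hd (by exact_mod_cast h0)
  · exact hd (by exact_mod_cast h1)
  · exact hd (by exact_mod_cast h2)

theorem fc_lt : ∀ i < 16, ∀ k ∈ fc i, k < 26 := by decide +kernel

theorem com_nodup : ∀ i < 16, ∀ j < 16, i ≠ j → (com i j).Nodup := by decide +kernel

/-- The intersection of two different faces is empty, a vertex, or an edge. -/
theorem inter_cases {i j : ℕ} (hi : i < 16) (hj : j < 16) (hij : i ≠ j) :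
    (com i j).length = 0 ∧ FS i ∩ FS j = ∅ ∨
    (com i j).length = 1 ∧ (∃ v, FS i ∩ FS j = {v}) ∨
    (com i j).length = 2 ∧ (∃ a b, a ≠ b ∧ FS i ∩ FS j = segment ℝ a b) := by
  have hl := com_len i hi j hj hij
  have hn := com_nodup i hi j hj hij
  rw [inter_eq hi hj hij]
  rcases hc : com i j with _ | ⟨a, _ | ⟨b, _ | ⟨c, l⟩⟩⟩
  · left; simp
  · right; left
    refine ⟨by simp, pt a, ?_⟩
    have : pt '' {k | k ∈ [a]} = {pt a} := by ext; simp
    rw [this, convexHull_singleton]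
  · right; right
    have ha : a ∈ com i j := by rw [hc]; simp
    have hb : b ∈ com i j := by rw [hc]; simp
    have hab : a ≠ b := by rw [hc] at hn; simpa using hn
    refine ⟨by simp, pt a, pt b, pt_ne (fc_lt i hi a (mem_com.mp ha).1) (fc_lt i hi b (mem_com.mp hb).1) hab, ?_⟩
    have : pt '' {k | k ∈ [a, b]} = {pt a, pt b} := by
      ext x; simp [eq_comm]
    rw [this, convexHull_pair]
  · rw [hc] at hl; simp at hl

theorem inter_comm_extreme {i j : ℕ} (hi : i < 16) (hj : j < 16) (hij : i ≠ j) :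
    IsExtreme ℝ (FS j) (FS i ∩ FS j) := by
  rw [inter_comm]; exact inter_extreme hj hi hij.symm

theorem meet_FS {i j : ℕ} (hi : i < 16) (hj : j < 16) (hij : i ≠ j) :
    FS i ∩ FS j = ∅ ∨
    (∃ v, FS i ∩ FS j = {v} ∧ IsVertex (FS i) v ∧ IsVertex (FS j) v) ∨
    (IsEdge (FS i) (FS i ∩ FS j) ∧ IsEdge (FS j) (FS i ∩ FS j)) := by
  have e1 := inter_extreme hi hj hij
  have e2 := inter_comm_extreme hi hj hij
  rcases inter_cases hi hj hij with ⟨-, h⟩ | ⟨-, v, h⟩ | ⟨-, a, b, hab, h⟩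
  · exact Or.inl h
  · right; left
    rw [h] at e1 e2
    exact ⟨v, h, isExtreme_singleton.mp e1, isExtreme_singleton.mp e2⟩
  · right; right
    exact ⟨⟨a, b, hab, h, e1⟩, ⟨a, b, hab, h, e2⟩⟩

/-- If two faces have a common edge, they have two common vertices. -/
theorem len_of_common_edge {i j : ℕ} (hi : i < 16) (hj : j < 16) (hij : i ≠ j)
    (h : ∃ T, IsEdge (FS i) T ∧ IsEdge (FS j) T) : (com i j).length = 2 := by
  obtain ⟨T, ⟨a, b, hab, rfl, hT⟩, ⟨a', b', -, -, hT'⟩⟩ := h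
  have ha : a ∈ FS i ∩ FS j := ⟨hT.1 (left_mem_segment ℝ a b), hT'.1 (left_mem_segment ℝ a b)⟩
  have hb : b ∈ FS i ∩ FS j := ⟨hT.1 (right_mem_segment ℝ a b), hT'.1 (right_mem_segment ℝ a b)⟩
  rcases inter_cases hi hj hij with ⟨-, h⟩ | ⟨-, v, h⟩ | ⟨h, -⟩
  · rw [h] at ha; exact absurd ha (by simp)
  · rw [h] at ha hb
    exact absurd (ha.trans hb.symm) hab
  · exact h

/-- If two faces have two common vertices, they have a common edge. -/
theorem common_edge_of_len {i j : ℕ} (hi : i < 16) (hj : j < 16) (hij : i ≠ j)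
    (h : (com i j).length = 2) : ∃ T, IsEdge (FS i) T ∧ IsEdge (FS j) T := by
  rcases inter_cases hi hj hij with ⟨h', -⟩ | ⟨h', -⟩ | ⟨-, a, b, hab, h'⟩
  · omega
  · omega
  · exact ⟨FS i ∩ FS j, ⟨a, b, hab, h', inter_extreme hi hj hij⟩,
      ⟨a, b, hab, h', inter_comm_extreme hi hj hij⟩⟩

/-! ## Corners -/

/-- Sign with which the functional `pl g` is used on face `i`. -/
def sg (i g : ℕ) : ℤ := if 13 ≤ i ∧ 13 ≤ g then -1 else 1

/-- Determinant of the linear parts of three functionals. -/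
def dt (a b c : Fn) : ℤ :=
  a.1 * (b.2.1 * c.2.2.1 - b.2.2.1 * c.2.1) - a.2.1 * (b.1 * c.2.2.1 - b.2.2.1 * c.1)
    + a.2.2.1 * (b.1 * c.2.1 - b.2.1 * c.1)

/-- The check of one corner of face `i`. -/
def checkCorner (i : ℕ) (c : ℕ × ℕ × ℕ × ℕ × ℕ) : Bool :=
  match c with
  | (u, v, w, g, h) =>
    decide (u ∈ fc i) && decide (v ∈ fc i) && decide (w ∈ fc i) &&
    decide (iev (pl i) (vt u) = 0) && decide (iev (pl i) (vt v) = 0) && decide (iev (pl i) (vt w) = 0) &&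
    decide (iev (pl g) (vt u) = 0) && decide (iev (pl g) (vt v) = 0) &&
    decide (iev (pl h) (vt v) = 0) && decide (iev (pl h) (vt w) = 0) &&
    decide (0 < sg i h * iev (pl h) (vt u)) && decide (0 < sg i g * iev (pl g) (vt w)) &&
    decide (dt (pl i) (pl g) (pl h) ≠ 0)

theorem checkCorner_all : ∀ i < 16, ∀ c ∈ cn i, checkCorner i c = true := by decide +kernel

theorem corner_exists : ∀ i < 16, ∀ v ∈ fc i, ∃ c ∈ cn i, c.2.1 = v := by decide +kernel

theorem cn_ne : ∀ i < 16, cn i ≠ [] := by decide +kernel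

theorem fc_ne : ∀ i < 16, fc i ≠ [] := by decide +kernel

theorem corner_data {i : ℕ} (hi : i < 16) {u v w g h : ℕ} (hc : (u, v, w, g, h) ∈ cn i) :
    (u ∈ fc i ∧ v ∈ fc i ∧ w ∈ fc i) ∧
    (iev (pl i) (vt u) = 0 ∧ iev (pl i) (vt v) = 0 ∧ iev (pl i) (vt w) = 0) ∧
    (iev (pl g) (vt u) = 0 ∧ iev (pl g) (vt v) = 0 ∧ iev (pl h) (vt v) = 0 ∧ iev (pl h) (vt w) = 0) ∧
    0 < sg i h * iev (pl h) (vt u) ∧ 0 < sg i g * iev (pl g) (vt w) ∧ dt (pl i) (pl g) (pl h) ≠ 0 := by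
  have := checkCorner_all i hi _ hc
  simp only [checkCorner, Bool.and_eq_true, decide_eq_true_eq] at this
  tauto

theorem lin_det {a b c : Fn} (hd : dt a b c ≠ 0) {x : E3} (ha : lin a x = 0) (hb : lin b x = 0)
    (hc : lin c x = 0) : x = 0 := by
  have hd' : (dt a b c : ℝ) ≠ 0 := by exact_mod_cast hd
  simp only [lin] at ha hb hc
  have h0 : (dt a b c : ℝ) * x 0 = 0 := by
    simp only [dt]; push_cast
    linear_combination ((b.2.1 : ℝ) * c.2.2.1 - b.2.2.1 * c.2.1) * ha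
      - ((a.2.1 : ℝ) * c.2.2.1 - a.2.2.1 * c.2.1) * hb + ((a.2.1 : ℝ) * b.2.2.1 - a.2.2.1 * b.2.1) * hc
  have h1 : (dt a b c : ℝ) * x 1 = 0 := by
    simp only [dt]; push_cast
    linear_combination -((b.1 : ℝ) * c.2.2.1 - b.2.2.1 * c.1) * ha
      + ((a.1 : ℝ) * c.2.2.1 - a.2.2.1 * c.1) * hb - ((a.1 : ℝ) * b.2.2.1 - a.2.2.1 * b.1) * hc
  have h2 : (dt a b c : ℝ) * x 2 = 0 := by
    simp only [dt]; push_cast
    linear_combination ((b.1 : ℝ) * c.2.1 - b.2.1 * c.1) * ha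
      - ((a.1 : ℝ) * c.2.1 - a.2.1 * c.1) * hb + ((a.1 : ℝ) * b.2.1 - a.2.1 * b.1) * hc
  ext k
  fin_cases k
  · simpa [hd'] using h0
  · simpa [hd'] using h1
  · simpa [hd'] using h2

theorem lin_comb (l : Fn) (x y : E3) (a b : ℝ) : lin l (a • x + b • y) = a * lin l x + b * lin l y := by
  simp only [lin, Pi.add_apply, Pi.smul_apply, smul_eq_mul]; ring

theorem lin_sub (l : Fn) (x y : E3) : lin l (x - y) = lin l x - lin l y := by
  simp only [lin, Pi.sub_apply]; ring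

theorem pos_fst {a b : ℝ} (h : 0 < a * b) (hb : 0 ≤ b) : 0 < a := by
  by_contra hc
  push Not at hc
  have := mul_nonpos_of_nonpos_of_nonneg hc hb
  linarith

/-- A point of the plane of face `i` on the right side of all edge planes of the face lies in the face. -/
theorem mem_face {i : ℕ} (hi : i < 16) {p : E3} (h0 : lev (pl i) p = 0)
    (hg : ∀ c ∈ cn i, 0 ≤ (sg i c.2.2.2.1 : ℝ) * lev (pl c.2.2.2.1) p ∧
      0 ≤ (sg i c.2.2.2.2 : ℝ) * lev (pl c.2.2.2.2) p) : p ∈ FS i := by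
  by_contra hp
  have hfin : (VS i).Finite := by
    apply Set.Finite.image
    exact List.finite_toSet (fc i)
  have hcl : IsClosed (FS i) := (hfin.isCompact_convexHull (𝕜 := ℝ)).isClosed
  obtain ⟨f, s, hs, hsp⟩ := geometric_hahn_banach_closed_point (convex_convexHull ℝ (VS i)) hcl hp
  have hne : (fc i).toFinset.Nonempty := by
    obtain ⟨k, hk⟩ := List.exists_mem_of_ne_nil _ (fc_ne i hi)
    exact ⟨k, by simpa using hk⟩
  obtain ⟨v, hv, hmax⟩ := Finset.exists_max_image (fc i).toFinset (fun k => f (pt k)) hne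
  rw [List.mem_toFinset] at hv
  obtain ⟨⟨u, v', w, g, h⟩, hc, hv'⟩ := corner_exists i hi v hv
  simp only at hv'
  subst hv'
  obtain ⟨⟨mu, mv, mw⟩, ⟨iu, iv, iw⟩, ⟨gu, gv, hv0, hw⟩, hu, gw, hd⟩ := corner_data hi hc
  obtain ⟨pg, ph⟩ := hg _ hc
  simp only at pg ph
  -- positive values
  have hu' : 0 < (sg i h : ℝ) * lev (pl h) (pt u) := by
    have e := lev_pt (pl h) u
    have : (0 : ℝ) < (sg i h : ℝ) * (iev (pl h) (vt u) : ℝ) := by exact_mod_cast hu
    rw [← e, ← mul_assoc] at this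
    exact pos_fst this (vt_posR u).le
  have gw' : 0 < (sg i g : ℝ) * lev (pl g) (pt w) := by
    have e := lev_pt (pl g) w
    have : (0 : ℝ) < (sg i g : ℝ) * (iev (pl g) (vt w) : ℝ) := by exact_mod_cast gw
    rw [← e, ← mul_assoc] at this
    exact pos_fst this (vt_posR w).le
  set α : ℝ := ((sg i h : ℝ) * lev (pl h) p) / ((sg i h : ℝ) * lev (pl h) (pt u)) with hα
  set β : ℝ := ((sg i g : ℝ) * lev (pl g) p) / ((sg i g : ℝ) * lev (pl g) (pt w)) with hβ
  have hα0 : 0 ≤ α := div_nonneg ph hu'.le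
  have hβ0 : 0 ≤ β := div_nonneg pg gw'.le
  have sh : (sg i h : ℝ) ≠ 0 := left_ne_zero_of_mul hu'.ne'
  have sgg : (sg i g : ℝ) ≠ 0 := left_ne_zero_of_mul gw'.ne'
  have lu : lev (pl h) (pt u) ≠ 0 := right_ne_zero_of_mul hu'.ne'
  have lw : lev (pl g) (pt w) ≠ 0 := right_ne_zero_of_mul gw'.ne'
  have hα' : α * lev (pl h) (pt u) = lev (pl h) p := by
    rw [hα, mul_div_mul_left _ _ sh]; field_simp
  have hβ' : β * lev (pl g) (pt w) = lev (pl g) p := by
    rw [hβ, mul_div_mul_left _ _ sgg]; field_simp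
  have hid : p - pt v' - (α • (pt u - pt v') + β • (pt w - pt v')) = 0 := by
    apply lin_det hd
    · rw [lin_sub, lin_comb, lev_sub, lev_sub, lev_sub, h0, lev_pt_zero iu, lev_pt_zero iv, lev_pt_zero iw]
      ring
    · rw [lin_sub, lin_comb, lev_sub, lev_sub, lev_sub, lev_pt_zero gu, lev_pt_zero gv, ← hβ']
      ring
    · rw [lin_sub, lin_comb, lev_sub, lev_sub, lev_sub, lev_pt_zero hv0, lev_pt_zero hw, ← hα']
      ring
  have hid2 : p - pt v' = α • (pt u - pt v') + β • (pt w - pt v') := sub_eq_zero.mp hid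
  have hf := congrArg f hid2
  simp only [map_sub, map_add, map_smul, smul_eq_mul] at hf
  have m1 := hmax u (by simpa using mu)
  have m2 := hmax w (by simpa using mw)
  have m3 := hs (pt v') (subset_convexHull ℝ _ ⟨v', mv, rfl⟩)
  nlinarith [mul_nonneg hα0 (sub_nonneg.mpr m1), mul_nonneg hβ0 (sub_nonneg.mpr m2)]

/-! ## Planarity -/

/-- The linear part of a functional, as a linear map. -/
def linMap (l : Fn) : E3 →ₗ[ℝ] ℝ where
  toFun := lin l
  map_add' x y := by simp only [lin, Pi.add_apply]; ring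
  map_smul' a x := by simp only [lin, Pi.smul_apply, smul_eq_mul, RingHom.id_apply]; ring

theorem linMap_apply (l : Fn) (x : E3) : linMap l x = lin l x := rfl

theorem coplanar_of_plane {l : Fn} {S : Set E3} (hS : ∀ p ∈ S, lev l p = 0) (hl : linMap l ≠ 0) :
    Coplanar ℝ S := by
  rw [coplanar_iff_finrank_le_two]
  have h1 : vectorSpan ℝ S ≤ LinearMap.ker (linMap l) := by
    rw [vectorSpan_def, Submodule.span_le]
    rintro _ ⟨x, hx, y, hy, rfl⟩
    simp only [SetLike.mem_coe, LinearMap.mem_ker, linMap_apply, vsub_eq_sub]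
    rw [lev_sub, hS x hx, hS y hy, sub_zero]
  have h2 : Module.finrank ℝ (LinearMap.ker (linMap l)) = 2 := by
    have h3 := LinearMap.finrank_range_add_finrank_ker (linMap l)
    have h4 : LinearMap.range (linMap l) = ⊤ := LinearMap.range_eq_top.mpr (LinearMap.surjective hl)
    rw [h4, finrank_top] at h3
    simp only [Module.finrank_self, Module.finrank_fintype_fun_eq_card, Fintype.card_fin] at h3
    omega
  calc Module.finrank ℝ (vectorSpan ℝ S) ≤ Module.finrank ℝ (LinearMap.ker (linMap l)) :=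
        Submodule.finrank_mono h1
    _ = 2 := h2
    _ ≤ 2 := le_rfl

/-- Corner vertices are not collinear. -/
theorem corner_ne {i : ℕ} (hi : i < 16) {u v w g h : ℕ} (hc : (u, v, w, g, h) ∈ cn i) :
    pt u ≠ pt v ∧ lev (pl g) (pt w) ≠ 0 ∧ lev (pl g) (pt u) = 0 ∧ lev (pl g) (pt v) = 0 := by
  obtain ⟨⟨mu, mv, mw⟩, ⟨iu, iv, iw⟩, ⟨gu, gv, hv0, hw⟩, hu, gw, hd⟩ := corner_data hi hc
  refine ⟨?_, ?_, lev_pt_zero gu, lev_pt_zero gv⟩
  · apply pt_ne (fc_lt i hi u mu) (fc_lt i hi v mv)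
    rintro rfl
    rw [hv0] at hu; simp at hu
  · intro h0
    rw [lev_pt_eq_zero h0] at gw; simp at gw

theorem not_collinear_of {l : Fn} {S : Set E3} {u v w : E3} (hu : u ∈ S) (hv : v ∈ S) (hw : w ∈ S)
    (huv : u ≠ v) (lu : lev l u = 0) (lv : lev l v = 0) (lw : lev l w ≠ 0) : ¬ Collinear ℝ S := by
  intro hS
  rw [collinear_iff_of_mem hu] at hS
  obtain ⟨d, hd⟩ := hS
  obtain ⟨r, hr⟩ := hd v hv
  obtain ⟨s, hs⟩ := hd w hw
  have e1 : lin l (v - u) = r * lin l d := by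
    rw [hr]; simp only [vadd_eq_add, add_sub_cancel_right, lin, Pi.smul_apply, smul_eq_mul]; ring
  have e2 : lin l (w - u) = s * lin l d := by
    rw [hs]; simp only [vadd_eq_add, add_sub_cancel_right, lin, Pi.smul_apply, smul_eq_mul]; ring
  rw [lev_sub, lu, lv] at e1
  rw [lev_sub, lu] at e2
  have hr0 : r ≠ 0 := by
    rintro rfl
    apply huv
    rw [hr]; simp
  have hd0 : lin l d = 0 := by
    have : r * lin l d = 0 := by linarith
    rcases mul_eq_zero.mp this with h | h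
    · exact absurd h hr0
    · exact h
  rw [hd0] at e2
  apply lw; linarith

theorem pl_ne {i : ℕ} (hi : i < 16) : linMap (pl i) ≠ 0 := by
  obtain ⟨⟨u, v, w, g, h⟩, hc⟩ := List.exists_mem_of_ne_nil _ (cn_ne i hi)
  obtain ⟨-, -, -, -, -, hd⟩ := corner_data hi hc
  intro h0
  apply hd
  have a0 := LinearMap.congr_fun h0 ![1, 0, 0]
  have a1 := LinearMap.congr_fun h0 ![0, 1, 0]
  have a2 := LinearMap.congr_fun h0 ![0, 0, 1]
  simp [linMap_apply, lin] at a0 a1 a2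
  simp [dt, a0, a1, a2]

theorem face_plane : ∀ i < 16, ∀ k ∈ fc i, iev (pl i) (vt k) = 0 := by decide +kernel

theorem polygon_FS {i : ℕ} (hi : i < 16) : IsConvexPolygon (FS i) := by
  classical
  refine ⟨((fc i).toFinset.image pt), ?_, ?_, ?_⟩
  · unfold FS VS
    congr 1
    ext x; simp
  · apply coplanar_of_plane (l := pl i) _ (pl_ne hi)
    intro p hp
    simp only [Finset.coe_image, List.coe_toFinset, mem_image] at hp
    obtain ⟨k, hk, rfl⟩ := hp
    exact lev_pt_zero (face_plane i hi k hk)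
  · obtain ⟨⟨u, v, w, g, h⟩, hc⟩ := List.exists_mem_of_ne_nil _ (cn_ne i hi)
    obtain ⟨⟨mu, mv, mw⟩, -⟩ := corner_data hi hc
    obtain ⟨h1, h2, h3, h4⟩ := corner_ne hi hc
    have mem : ∀ k ∈ fc i, pt k ∈ (((fc i).toFinset.image pt : Finset E3) : Set E3) := by
      intro k hk
      simp only [Finset.coe_image, List.coe_toFinset, mem_image]
      exact ⟨k, hk, rfl⟩
    exact not_collinear_of (mem u mu) (mem v mv) (mem w mw) h1 h3 h4 h2

theorem pt_mem_FS {i k : ℕ} (hk : k ∈ fc i) : pt k ∈ FS i := subset_convexHull ℝ _ ⟨k, hk, rfl⟩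

/-- Different faces: some vertex of face `j` is off the plane of face `i`. -/
theorem off_plane : ∀ i < 16, ∀ j < 16, i ≠ j → ∃ t ∈ fc j, iev (pl i) (vt t) ≠ 0 := by decide +kernel

theorem not_coplanar_FS {i j : ℕ} (hi : i < 16) (hj : j < 16) (hij : i ≠ j) :
    ¬ Coplanar ℝ (FS i ∪ FS j) := by
  intro hcop
  rw [coplanar_iff_finrank_le_two] at hcop
  obtain ⟨⟨u, v, w, g, h⟩, hc⟩ := List.exists_mem_of_ne_nil _ (cn_ne i hi)
  obtain ⟨⟨mu, mv, mw⟩, ⟨iu, iv, iw⟩, -⟩ := corner_data hi hc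
  obtain ⟨h1, h2, h3, h4⟩ := corner_ne hi hc
  obtain ⟨t, mt, ht⟩ := off_plane i hi j hj hij
  have ht' : lev (pl i) (pt t) ≠ 0 := fun h => ht (lev_pt_eq_zero h)
  set W := vectorSpan ℝ (FS i ∪ FS j)
  have memv : ∀ a ∈ FS i ∪ FS j, ∀ b ∈ FS i ∪ FS j, a - b ∈ W := fun a ha b hb =>
    vsub_mem_vectorSpan ℝ ha hb
  have Mu : pt u ∈ FS i ∪ FS j := Or.inl (pt_mem_FS mu)
  have Mv : pt v ∈ FS i ∪ FS j := Or.inl (pt_mem_FS mv)
  have Mw : pt w ∈ FS i ∪ FS j := Or.inl (pt_mem_FS mw)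
  have Mt : pt t ∈ FS i ∪ FS j := Or.inr (pt_mem_FS mt)
  let f : Fin 3 → W := ![⟨pt v - pt u, memv _ Mv _ Mu⟩, ⟨pt w - pt u, memv _ Mw _ Mu⟩,
    ⟨pt t - pt u, memv _ Mt _ Mu⟩]
  have hli : LinearIndependent ℝ f := by
    rw [Fintype.linearIndependent_iff]
    intro c hc0
    have hsum : c 0 • (pt v - pt u) + c 1 • (pt w - pt u) + c 2 • (pt t - pt u) = 0 := by
      have := congrArg (Subtype.val) hc0
      simpa [Fin.sum_univ_three, f] using this
    have L : ∀ l : Fn, c 0 * (lev l (pt v) - lev l (pt u)) + c 1 * (lev l (pt w) - lev l (pt u))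
        + c 2 * (lev l (pt t) - lev l (pt u)) = 0 := by
      intro l
      have h := congrArg (linMap l) hsum
      simp only [map_add, map_smul, smul_eq_mul, map_zero, linMap_apply, lev_sub] at h
      exact h
    have e1 := L (pl i)
    rw [lev_pt_zero iu, lev_pt_zero iv, lev_pt_zero iw] at e1
    have c2 : c 2 = 0 := by
      have : c 2 * lev (pl i) (pt t) = 0 := by linarith
      rcases mul_eq_zero.mp this with h | h
      · exact h
      · exact absurd h ht'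
    have e2 := L (pl g)
    rw [h3, h4, c2] at e2
    have c1 : c 1 = 0 := by
      have : c 1 * lev (pl g) (pt w) = 0 := by linarith
      rcases mul_eq_zero.mp this with h | h
      · exact h
      · exact absurd h h2
    have c0 : c 0 = 0 := by
      rw [c1, c2] at hsum
      simp only [zero_smul, add_zero] at hsum
      rcases smul_eq_zero.mp hsum with h | h
      · exact h
      · exact absurd (sub_eq_zero.mp h).symm h1
    intro k
    fin_cases k
    · exact c0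
    · exact c1
    · exact c2
  have := hli.fintype_card_le_finrank
  simp only [Fintype.card_fin] at this
  omega

theorem FS_ne {i j : ℕ} (hi : i < 16) (hj : j < 16) (hij : i ≠ j) : FS i ≠ FS j := by
  intro h
  obtain ⟨t, mt, ht⟩ := off_plane i hi j hj hij
  apply ht
  apply lev_pt_eq_zero
  have : pt t ∈ FS i := by rw [h]; exact pt_mem_FS mt
  exact hull_zero (face_plane i hi) _ this

/-! ## Every edge of a face is an edge of exactly one other face -/

theorem edge_chk : ∀ i < 16, ∀ c ∈ cn i, (c.2.2.2.1 < 16 ∧ i ≠ c.2.2.2.1) ∧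
    (∀ k ∈ fc i, 0 ≤ sg i c.2.2.2.1 * iev (pl c.2.2.2.1) (vt k)) ∧
    (∀ k ∈ fc i, iev (pl c.2.2.2.1) (vt k) = 0 → k ∈ fc c.2.2.2.1) ∧
    ∃ c' ∈ cn i, c'.2.2.2.1 = c.2.2.2.2 := by decide +kernel

/-- Three different faces have at most one common vertex. -/
def chk3 (i j k : ℕ) : Bool :=
  decide (i = j) || decide (i = k) || decide (j = k) ||
    decide (((com i j).filter (fun v => decide (v ∈ fc k))).length ≤ 1)

theorem chk3_all : ∀ i < 16, ∀ j < 16, ∀ k < 16, chk3 i j k = true := by decide +kernel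

theorem three_chk : ∀ i < 16, ∀ j < 16, ∀ k < 16, i ≠ j → i ≠ k → j ≠ k →
    ((com i j).filter (fun v => decide (v ∈ fc k))).length ≤ 1 := by
  intro i hi j hj k hk hij hik hjk
  have h := chk3_all i hi j hj k hk
  simpa only [chk3, decide_eq_false hij, decide_eq_false hik, decide_eq_false hjk, Bool.false_or,
    decide_eq_true_eq] using h

/-- A multiple of a functional. -/
def sc (n : ℤ) (l : Fn) : Fn := (n * l.1, n * l.2.1, n * l.2.2.1, n * l.2.2.2)

theorem lev_sc (n : ℤ) (l : Fn) (p : E3) : lev (sc n l) p = n * lev l p := by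
  simp only [lev, sc]; push_cast; ring

theorem iev_sc (n : ℤ) (l v : Fn) : iev (sc n l) v = n * iev l v := by
  simp only [iev, sc]; ring

theorem sg_ne (i g : ℕ) : sg i g ≠ 0 := by
  unfold sg; split_ifs <;> norm_num

theorem side_nonneg {i : ℕ} (hi : i < 16) {c : ℕ × ℕ × ℕ × ℕ × ℕ} (hc : c ∈ cn i) {p : E3} (hp : p ∈ FS i) :
    0 ≤ (sg i c.2.2.2.1 : ℝ) * lev (pl c.2.2.2.1) p := by
  obtain ⟨-, h, -⟩ := edge_chk i hi c hc
  rw [← lev_sc]
  exact hull_nonneg (fun k hk => by rw [iev_sc]; exact h k hk) p hp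

theorem on_edge {i : ℕ} (hi : i < 16) {c : ℕ × ℕ × ℕ × ℕ × ℕ} (hc : c ∈ cn i) {p : E3} (hp : p ∈ FS i)
    (h0 : lev (pl c.2.2.2.1) p = 0) : p ∈ FS c.2.2.2.1 := by
  obtain ⟨-, h, h', -⟩ := edge_chk i hi c hc
  have h1 := hull_face (l := sc (sg i c.2.2.2.1) (pl c.2.2.2.1)) (i := i)
    (fun k hk => by rw [iev_sc]; exact h k hk) hp (by rw [lev_sc, h0, mul_zero])
  refine convexHull_mono ?_ h1
  apply image_mono
  rintro k ⟨hk1, hk2⟩
  rw [iev_sc] at hk2
  rcases mul_eq_zero.mp hk2 with h3 | h3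
  · exact absurd h3 (sg_ne _ _)
  · exact h' k hk1 h3

theorem lev_add_smul (l : Fn) (m d : E3) (t : ℝ) : lev l (m + t • d) = lev l m + t * lin l d := by
  simp only [lev, lin, Pi.add_apply, Pi.smul_apply, smul_eq_mul]; ring

/-- A point of a face off all its sides can be moved a little in every direction of the plane. -/
theorem interior_dir {i : ℕ} (hi : i < 16) {m d : E3} (hm : m ∈ FS i)
    (hne : ∀ c ∈ cn i, lev (pl c.2.2.2.1) m ≠ 0) (hd : lin (pl i) d = 0) :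
    ∃ t : ℝ, 0 < t ∧ m + t • d ∈ FS i ∧ m + (-t) • d ∈ FS i := by
  have hE : ∀ᶠ t in nhds (0 : ℝ), ∀ c ∈ {c | c ∈ cn i},
      0 < (sg i c.2.2.2.1 : ℝ) * lev (pl c.2.2.2.1) (m + t • d) := by
    rw [Filter.eventually_all_finite (List.finite_toSet (cn i))]
    intro c hc
    have hpos : 0 < (sg i c.2.2.2.1 : ℝ) * lev (pl c.2.2.2.1) m := by
      have h1 := side_nonneg hi hc hm
      have h2 : (sg i c.2.2.2.1 : ℝ) ≠ 0 := by exact_mod_cast sg_ne _ _
      exact lt_of_le_of_ne h1 (mul_ne_zero h2 (hne c hc)).symm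
    have hcont : Continuous fun t : ℝ => (sg i c.2.2.2.1 : ℝ) * (lev (pl c.2.2.2.1) m + t * lin (pl c.2.2.2.1) d) := by
      fun_prop
    have h3 := hcont.tendsto 0
    have h4 := h3.eventually (lt_mem_nhds (a := (0 : ℝ)) (by simpa using hpos))
    filter_upwards [h4] with t ht
    rw [lev_add_smul]; exact ht
  obtain ⟨δ, hδ, h⟩ := Metric.eventually_nhds_iff.mp hE
  have key : ∀ t : ℝ, |t| < δ → m + t • d ∈ FS i := by
    intro t ht
    have h1 := h (y := t) (by rw [Real.dist_eq, sub_zero]; exact ht)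
    apply mem_face hi
    · rw [lev_add_smul, hd, mul_zero, add_zero]
      exact hull_zero (face_plane i hi) m hm
    · intro c hc
      refine ⟨(h1 c hc).le, ?_⟩
      obtain ⟨-, -, -, c', hc', he⟩ := edge_chk i hi c hc
      rw [← he]
      exact (h1 c' hc').le
  refine ⟨δ / 2, by linarith, key _ ?_, key _ ?_⟩
  · rw [abs_of_pos (by linarith)]; linarith
  · rw [abs_neg, abs_of_pos (by linarith)]; linarith

/-- A nondegenerate segment that is extreme in `S` and contained in a segment of `S` is equal to it. -/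
theorem seg_eq {S : Set E3} {a b p q : E3} (hab : a ≠ b) (hT : IsExtreme ℝ S (segment ℝ a b))
    (hsub : segment ℝ a b ⊆ segment ℝ p q) (hS : segment ℝ p q ⊆ S) : segment ℝ a b = segment ℝ p q := by
  have ha := hsub (left_mem_segment ℝ a b)
  have hb := hsub (right_mem_segment ℝ a b)
  obtain ⟨s1, s2, hs1, hs2, hs, rfl⟩ := ha
  obtain ⟨t1, t2, ht1, ht2, ht, rfl⟩ := hb
  set a := s1 • p + s2 • q
  set b := t1 • p + t2 • q
  have hst : s2 ≠ t2 := by
    intro h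
    have h' : s1 = t1 := by linarith
    exact hab (by simp only [a, b, h, h'])
  have hm : (2⁻¹ : ℝ) • a + (2⁻¹ : ℝ) • b ∈ segment ℝ a b := ⟨2⁻¹, 2⁻¹, by norm_num, by norm_num, by norm_num, rfl⟩
  have hm2 : (2⁻¹ : ℝ) • a + (2⁻¹ : ℝ) • b = ((s1 + t1) / 2) • p + ((s2 + t2) / 2) • q := by
    simp only [a, b]; module
  have h2 : 0 < s2 + t2 := by
    by_contra hc
    exact hst (by linarith)
  have h1 : 0 < s1 + t1 := by
    by_contra hc
    exact hst (by linarith)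
  have hp : p ∈ segment ℝ a b := by
    refine hT.2 (hS (left_mem_segment ℝ p q)) (hS (right_mem_segment ℝ p q)) hm ?_
    rw [hm2]
    exact ⟨(s1 + t1) / 2, (s2 + t2) / 2, by linarith, by linarith, by linarith, rfl⟩
  have hq : q ∈ segment ℝ a b := by
    refine hT.2 (hS (right_mem_segment ℝ p q)) (hS (left_mem_segment ℝ p q)) hm ?_
    rw [hm2]
    exact ⟨(s2 + t2) / 2, (s1 + t1) / 2, by linarith, by linarith, by linarith, add_comm _ _⟩
  exact Subset.antisymm hsub ((convex_segment a b).segment_subset hp hq)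

/-- An edge of face `i` contained in another face is the intersection of the two faces. -/
theorem edge_of_sub {i j : ℕ} (hi : i < 16) (hj : j < 16) (hij : i ≠ j) {T : Set E3} (hT : IsEdge (FS i) T)
    (hsub : T ⊆ FS j) : T = FS i ∩ FS j := by
  obtain ⟨a, b, hab, rfl, hE⟩ := hT
  have h1 : segment ℝ a b ⊆ FS i ∩ FS j := subset_inter hE.1 hsub
  rcases inter_cases hi hj hij with ⟨-, h⟩ | ⟨-, v, h⟩ | ⟨-, p, q, hpq, h⟩
  · rw [h] at h1
    exact absurd (h1 (left_mem_segment ℝ a b)) (by simp)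
  · rw [h] at h1
    exact absurd ((h1 (left_mem_segment ℝ a b)).trans (h1 (right_mem_segment ℝ a b)).symm) hab
  · rw [h] at h1 ⊢
    exact seg_eq hab hE h1 (by rw [← h]; exact inter_subset_left)

theorem edge_side {i : ℕ} (hi : i < 16) {T : Set E3} (hT : IsEdge (FS i) T) :
    ∃ j < 16, i ≠ j ∧ T ⊆ FS j := by
  obtain ⟨a, b, hab, rfl, hE⟩ := hT
  have ha := hE.1 (left_mem_segment ℝ a b)
  have hb := hE.1 (right_mem_segment ℝ a b)
  set m : E3 := (2⁻¹ : ℝ) • a + (2⁻¹ : ℝ) • b with hm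
  have hmT : m ∈ segment ℝ a b := ⟨2⁻¹, 2⁻¹, by norm_num, by norm_num, by norm_num, rfl⟩
  have hmF := hE.1 hmT
  by_cases hne : ∀ c ∈ cn i, lev (pl c.2.2.2.1) m ≠ 0
  · exfalso
    obtain ⟨⟨u, v, w, g, h⟩, hc⟩ := List.exists_mem_of_ne_nil _ (cn_ne i hi)
    obtain ⟨⟨mu, mv, mw⟩, ⟨iu, iv, iw⟩, ⟨gu, gv, hv0, hw⟩, hu, gw, hd⟩ := corner_data hi hc
    have par : ∀ d : E3, lin (pl i) d = 0 → ∃ r : ℝ, d = r • (b - a) := by
      intro d hd0
      obtain ⟨t, ht, h1, h2⟩ := interior_dir hi hmF hne hd0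
      have h3 : m + t • d ∈ segment ℝ a b := by
        refine hE.2 h1 h2 hmT ⟨2⁻¹, 2⁻¹, by norm_num, by norm_num, by norm_num, ?_⟩
        module
      obtain ⟨x, y, hx, hy, hxy, h4⟩ := h3
      refine ⟨t⁻¹ * (y - 2⁻¹), ?_⟩
      have h5 : t • d = (y - 2⁻¹) • (b - a) := by
        have h6 : t • d = x • a + y • b - m := by rw [h4]; module
        have h7 : x = 1 - y := by linarith
        rw [h6, hm, h7]; module
      rw [mul_smul, ← h5, smul_smul, inv_mul_cancel₀ ht.ne', one_smul]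
    obtain ⟨r1, hr1⟩ := par (pt u - pt v) (by rw [lev_sub, lev_pt_zero iu, lev_pt_zero iv, sub_zero])
    obtain ⟨r2, hr2⟩ := par (pt w - pt v) (by rw [lev_sub, lev_pt_zero iw, lev_pt_zero iv, sub_zero])
    have lsm : ∀ (l : Fn) (r : ℝ) (x : E3), lin l (r • x) = r * lin l x := by
      intro l r x; simp only [lin, Pi.smul_apply, smul_eq_mul]; ring
    have e1 : lin (pl g) (pt u - pt v) = 0 := by rw [lev_sub, lev_pt_zero gu, lev_pt_zero gv, sub_zero]
    have e2 : lin (pl g) (pt w - pt v) ≠ 0 := by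
      rw [lev_sub, lev_pt_zero gv, sub_zero]
      intro h0
      rw [lev_pt_eq_zero h0] at gw; simp at gw
    have e3 : lin (pl h) (pt u - pt v) ≠ 0 := by
      rw [lev_sub, lev_pt_zero hv0, sub_zero]
      intro h0
      rw [lev_pt_eq_zero h0] at hu; simp at hu
    rw [hr1, lsm] at e1 e3
    rw [hr2, lsm] at e2
    rcases mul_eq_zero.mp e1 with h0 | h0
    · rw [h0, zero_mul] at e3; exact e3 rfl
    · rw [h0, mul_zero] at e2; exact e2 rfl
  · push Not at hne
    obtain ⟨c, hc, h0⟩ := hne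
    obtain ⟨⟨h1, h2⟩, -⟩ := edge_chk i hi c hc
    refine ⟨c.2.2.2.1, h1, h2, ?_⟩
    have s1 := side_nonneg hi hc ha
    have s2 := side_nonneg hi hc hb
    have h3 : (sg i c.2.2.2.1 : ℝ) * lev (pl c.2.2.2.1) a + (sg i c.2.2.2.1 : ℝ) * lev (pl c.2.2.2.1) b = 0 := by
      rw [hm, lev_comb _ _ _ _ _ (by norm_num)] at h0
      linear_combination 2 * (sg i c.2.2.2.1 : ℝ) * h0
    have hs : (sg i c.2.2.2.1 : ℝ) ≠ 0 := by exact_mod_cast sg_ne _ _
    have a0 : lev (pl c.2.2.2.1) a = 0 := by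
      have : (sg i c.2.2.2.1 : ℝ) * lev (pl c.2.2.2.1) a = 0 := by linarith
      exact (mul_eq_zero.mp this).resolve_left hs
    have b0 : lev (pl c.2.2.2.1) b = 0 := by
      have : (sg i c.2.2.2.1 : ℝ) * lev (pl c.2.2.2.1) b = 0 := by linarith
      exact (mul_eq_zero.mp this).resolve_left hs
    intro x hx
    apply on_edge hi hc (hE.1 hx)
    obtain ⟨s, t, hs, ht, hst, rfl⟩ := hx
    rw [lev_comb _ _ _ _ _ hst, a0, b0]; ring

/-- Every edge of a face is an edge of exactly one other face. -/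
theorem edge_unique {i : ℕ} (hi : i < 16) {T : Set E3} (hT : IsEdge (FS i) T) :
    ∃ j < 16, i ≠ j ∧ IsEdge (FS j) T ∧ ∀ k < 16, i ≠ k → IsEdge (FS k) T → k = j := by
  obtain ⟨j, hj, hij, hsub⟩ := edge_side hi hT
  have e := edge_of_sub hi hj hij hT hsub
  refine ⟨j, hj, hij, ?_, ?_⟩
  · obtain ⟨a, b, hab, h, -⟩ := hT
    refine ⟨a, b, hab, h, ?_⟩
    rw [e]
    exact inter_comm_extreme hi hj hij
  · intro k hk hik hTk
    by_contra hkj
    have e' := edge_of_sub hi hk hik hT (by obtain ⟨_, _, _, _, h⟩ := hTk; exact h.1)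
    have hl : (com i k).length = 2 := len_of_common_edge hi hk hik ⟨T, hT, hTk⟩
    have h3 := three_chk i hi k hk j hj hik hij hkj
    have hall : ∀ v ∈ com i k, v ∈ fc j := by
      intro v hv
      obtain ⟨v1, v2⟩ := mem_com.mp hv
      have hT' : pt v ∈ T := by rw [e']; exact ⟨pt_mem_FS v1, pt_mem_FS v2⟩
      rw [e, inter_left hi hj hij] at hT'
      exact ((pair_data hi hj hij).2.1 v v1).mp (lev_pt_eq_zero hT'.2)
    have : (com i k).filter (fun v => decide (v ∈ fc j)) = com i k := by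
      rw [List.filter_eq_self]
      intro v hv
      simpa using hall v hv
    rw [this, hl] at h3
    omega

/-! ## Colouring -/

theorem nb_check : ∀ i < 16, ∀ j ∈ nb i, j < 16 ∧ i ≠ j ∧ (com i j).length = 2 := by decide +kernel

/-- The colour `c` clashes at face `v` with the colours `asg` given so far. -/
def clash (asg : List (ℕ × ℕ)) (v c : ℕ) : Bool :=
  asg.any (fun p => p.2 == c && (nb v).contains p.1)

/-- Exhaustive search: the colours `asg` given so far have no proper extension to the faces in the list. -/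
def noext : List ℕ → List (ℕ × ℕ) → Bool
  | [], _ => false
  | v :: rest, asg => [0, 1, 2, 3].all (fun c => clash asg v c || noext rest ((v, c) :: asg))

theorem noext_sound {col : ℕ → ℕ} (h4 : ∀ i < 16, col i < 4)
    (hp : ∀ i < 16, ∀ j ∈ nb i, col i ≠ col j) :
    ∀ (order : List ℕ) (asg : List (ℕ × ℕ)), (∀ v ∈ order, v < 16) → (∀ p ∈ asg, col p.1 = p.2) →
      noext order asg = true → False := by
  intro order
  induction order with
  | nil => intro asg _ _ h; simp [noext] at h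
  | cons v rest ih =>
    intro asg ho ha h
    simp only [noext, List.all_eq_true, Bool.or_eq_true] at h
    have hv : v < 16 := ho v (by simp)
    have hc : col v ∈ [0, 1, 2, 3] := by
      have := h4 v hv
      simp only [List.mem_cons, List.not_mem_nil, or_false]
      omega
    rcases h (col v) hc with h | h
    · simp only [clash, List.any_eq_true, Bool.and_eq_true, beq_iff_eq, List.contains_iff_mem] at h
      obtain ⟨p, hp1, hp2, hp3⟩ := h
      exact hp v hv p.1 hp3 (by rw [ha p hp1, hp2])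
    · refine ih ((v, col v) :: asg) (fun w hw => ho w (by simp [hw])) ?_ h
      intro p hp'
      rcases List.mem_cons.mp hp' with rfl | hp'
      · rfl
      · exact ha p hp'

theorem noext_true : noext [8, 7, 14, 2, 3, 9, 11, 12, 10, 4, 15, 6, 5, 13, 0, 1] [] = true := by
  decide +kernel

theorem not_colourable : ¬ FaceColourable (fun i : Fin 16 => FS i) 4 := by
  rintro ⟨c, hc⟩
  let col : ℕ → ℕ := fun i => if h : i < 16 then (c ⟨i, h⟩ : ℕ) else 0
  refine noext_sound (col := col) ?_ ?_ [8, 7, 14, 2, 3, 9, 11, 12, 10, 4, 15, 6, 5, 13, 0, 1] [] ?_ ?_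
    noext_true
  · intro i hi
    simp only [col, hi, dif_pos]
    exact (c ⟨i, hi⟩).2
  · intro i hi j hj
    obtain ⟨hj16, hij, hl⟩ := nb_check i hi j hj
    simp only [col, hi, hj16, dif_pos]
    intro h
    refine hc ⟨i, hi⟩ ⟨j, hj16⟩ ?_ ?_ (Fin.ext h)
    · intro h'; exact hij (by simpa using h')
    · exact common_edge_of_len hi hj16 hij hl
  · decide
  · simp

/-! ## The union of the faces -/

/-- The boundary of the convex body minus the open prism. -/
def PH : Set E3 := {p | (∀ g < 13, 0 ≤ lev (pl g) p) ∧ (∃ s < 3, 0 ≤ lev (pl (13 + s)) p) ∧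
  ((∃ g < 13, lev (pl g) p = 0) ∨ ∀ s < 3, lev (pl (13 + s)) p ≤ 0)}

/-- The side of the prism beyond which face `i < 11` lies. -/
def so (i : ℕ) : ℕ := [0, 0, 1, 1, 2, 0, 0, 1, 1, 1, 2, 2, 0].getD i 0

theorem chk_K : ∀ i < 16, ∀ g < 13, ∀ k ∈ fc i, 0 ≤ iev (pl g) (vt k) := by decide +kernel

theorem chk_so : ∀ i < 13, so i < 3 ∧ ∀ k ∈ fc i, 0 ≤ iev (pl (13 + so i)) (vt k) := by decide +kernel

theorem chk_T : ∀ i < 16, 13 ≤ i → ∀ s < 3, ∀ k ∈ fc i, iev (pl (13 + s)) (vt k) ≤ 0 := by decide +kernel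

theorem chk_cn : ∀ i < 13, ∀ c ∈ cn i, (c.2.2.2.1 < 13 ∨ i < 11 ∧ c.2.2.2.1 = 13 + so i) ∧
    (c.2.2.2.2 < 13 ∨ i < 11 ∧ c.2.2.2.2 = 13 + so i) := by decide +kernel

theorem chk_cnT : ∀ i < 16, 13 ≤ i → ∀ c ∈ cn i, c.2.2.2.1 < 16 ∧ c.2.2.2.2 < 16 := by decide +kernel

/-- The 13 inequalities of the convex body, explicitly. -/
theorem K_expl {p : E3} (h : ∀ g < 13, 0 ≤ lev (pl g) p) :
    (0 ≤ p 1 - 6 * p 2 + 57 ∧ 0 ≤ -2 * p 0 + 3 * p 1 - 5 * p 2 + 52 ∧ 0 ≤ -4 * p 0 - p 1 - 3 * p 2 + 34 ∧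
    0 ≤ - p 1 - p 2 + 12 ∧ 0 ≤ 4 * p 0 - 3 * p 1 - 4 * p 2 + 43 ∧ 0 ≤ p 0 + 5 * p 2 + 49) ∧
    (0 ≤ - p 0 + p 1 + p 2 + 14 ∧ 0 ≤ -2 * p 0 + p 2 + 15 ∧ 0 ≤ -2 * p 0 - p 1 + p 2 + 14 ∧
    0 ≤ - p 0 - p 1 + p 2 + 13 ∧ 0 ≤ 3 * p 0 - 2 * p 1 + 4 * p 2 + 42 ∧ 0 ≤ 2 * p 0 - p 1 + 13 ∧
    0 ≤ p 1 + 6) := by
  have h0 := h 0 (by norm_num)
  have h1 := h 1 (by norm_num)
  have h2 := h 2 (by norm_num)
  have h3 := h 3 (by norm_num)
  have h4 := h 4 (by norm_num)
  have h5 := h 5 (by norm_num)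
  have h6 := h 6 (by norm_num)
  have h7 := h 7 (by norm_num)
  have h8 := h 8 (by norm_num)
  have h9 := h 9 (by norm_num)
  have h10 := h 10 (by norm_num)
  have h11 := h 11 (by norm_num)
  have h12 := h 12 (by norm_num)
  simp only [lev, pl, plList, List.getD_cons_zero, List.getD_cons_succ] at h0 h1 h2 h3 h4 h5 h6 h7 h8 h9 h10 h11 h12
  push_cast at h0 h1 h2 h3 h4 h5 h6 h7 h8 h9 h10 h11 h12
  refine ⟨⟨?_, ?_, ?_, ?_, ?_, ?_⟩, ?_, ?_, ?_, ?_, ?_, ?_, ?_⟩ <;> linarith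

theorem outer_of {i t : ℕ} (hi : i < 11) (ht : t < 3) {p : E3} (h : ∀ g < 13, 0 ≤ lev (pl g) p)
    (h0 : lev (pl i) p = 0) (h1 : 0 ≤ lev (pl (13 + t)) p) : 0 ≤ lev (pl (13 + so i)) p := by
  obtain ⟨⟨k0, k1, k2, k3, k4, k5⟩, k6, k7, k8, k9, k10, k11, k12⟩ := K_expl h
  clear h
  interval_cases i <;> interval_cases t <;>
    simp only [so, Nat.reduceAdd, lev, pl, plList, List.getD_cons_zero, List.getD_cons_succ] at h0 h1 ⊢ <;>
    push_cast at h0 h1 ⊢ <;> linarith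

theorem PH_eq : (⋃ i : Fin 16, FS i) = PH := by
  apply Subset.antisymm
  · apply iUnion_subset
    rintro ⟨i, hi⟩ p hp
    simp only at hp
    refine ⟨fun g hg => hull_nonneg (chk_K i hi g hg) p hp, ?_, ?_⟩
    · by_cases h13 : i < 13
      · exact ⟨so i, (chk_so i h13).1, hull_nonneg (chk_so i h13).2 p hp⟩
      · refine ⟨i - 13, by omega, ?_⟩
        have : 13 + (i - 13) = i := by omega
        rw [this]
        exact (hull_zero (face_plane i hi) p hp).ge
    · by_cases h13 : i < 13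
      · exact Or.inl ⟨i, h13, hull_zero (face_plane i hi) p hp⟩
      · exact Or.inr fun s hs => hull_nonpos (chk_T i hi (by omega) s hs) p hp
  · rintro p ⟨hK, ⟨t, ht, htp⟩, hor⟩
    rw [mem_iUnion]
    rcases hor with ⟨i, hi, h0⟩ | hall
    · refine ⟨⟨i, by omega⟩, ?_⟩
      apply mem_face (by omega) h0
      intro c hc
      have hsg : ∀ g, sg i g = 1 := by
        intro g; unfold sg; rw [if_neg]; omega
      simp only [hsg, Int.cast_one, one_mul]
      obtain ⟨c1, c2⟩ := chk_cn i hi c hc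
      constructor
      · rcases c1 with h | ⟨hi11, h⟩
        · exact hK _ h
        · rw [h]; exact outer_of hi11 ht hK h0 htp
      · rcases c2 with h | ⟨hi11, h⟩
        · exact hK _ h
        · rw [h]; exact outer_of hi11 ht hK h0 htp
    · refine ⟨⟨13 + t, by omega⟩, ?_⟩
      have key : ∀ g < 16, 0 ≤ (sg (13 + t) g : ℝ) * lev (pl g) p := by
        intro g hg
        by_cases h13 : g < 13
        · have : sg (13 + t) g = 1 := by unfold sg; rw [if_neg]; omega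
          rw [this, Int.cast_one, one_mul]; exact hK g h13
        · have : sg (13 + t) g = -1 := by unfold sg; rw [if_pos]; omega
          have h3 := hall (g - 13) (by omega)
          have h4 : 13 + (g - 13) = g := by omega
          rw [h4] at h3
          rw [this]; push_cast; linarith
      apply mem_face (by omega) (le_antisymm (hall t ht) htp)
      intro c hc
      obtain ⟨c1, c2⟩ := chk_cnT (13 + t) (by omega) (by omega) c hc
      exact ⟨key _ c1, key _ c2⟩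

/-! ## The torus -/

theorem T_expl (p : E3) : lev (pl 13) p = - p 1 - 3 ∧ lev (pl 14) p = 2 * p 0 + p 1 - 5 ∧
    lev (pl 15) p = -2 * p 0 + p 1 - 5 := by
  refine ⟨?_, ?_, ?_⟩ <;> simp only [lev, pl, plList, List.getD_cons_zero, List.getD_cons_succ] <;>
    push_cast <;> ring

/-- The inverse of the radial function of the triangle. -/
noncomputable def mm (e : ℂ) : ℝ :=
  max (-e.im / 3) (max ((2 * e.re + e.im) / 5) ((-2 * e.re + e.im) / 5))

theorem tunnel_ge {p : E3} {e : ℂ} {r : ℝ} (hr : 0 ≤ r) (h0 : p 0 = r * e.re) (h1 : p 1 = r * e.im) :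
    (∃ s < 3, 0 ≤ lev (pl (13 + s)) p) ↔ 0 ≤ r * mm e - 1 := by
  obtain ⟨t0, t1, t2⟩ := T_expl p
  rw [h0, h1] at t1 t2
  rw [h1] at t0
  unfold mm
  rw [mul_max_of_nonneg _ _ hr, mul_max_of_nonneg _ _ hr, sub_nonneg, le_max_iff, le_max_iff]
  constructor
  · rintro ⟨s, hs, h⟩
    interval_cases s
    · left
      simp only [add_zero] at h
      rw [t0] at h; linarith
    · right; left
      simp only [Nat.reduceAdd] at h
      rw [t1] at h; linarith
    · right; right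
      simp only [Nat.reduceAdd] at h
      rw [t2] at h; linarith
  · rintro (h | h | h)
    · refine ⟨0, by norm_num, ?_⟩
      simp only [add_zero]
      rw [t0]; linarith
    · refine ⟨1, by norm_num, ?_⟩
      simp only [Nat.reduceAdd]
      rw [t1]; linarith
    · refine ⟨2, by norm_num, ?_⟩
      simp only [Nat.reduceAdd]
      rw [t2]; linarith

theorem tunnel_le {p : E3} {e : ℂ} {r : ℝ} (hr : 0 ≤ r) (h0 : p 0 = r * e.re) (h1 : p 1 = r * e.im) :
    (∀ s < 3, lev (pl (13 + s)) p ≤ 0) ↔ r * mm e - 1 ≤ 0 := by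
  obtain ⟨t0, t1, t2⟩ := T_expl p
  rw [h0, h1] at t1 t2
  rw [h1] at t0
  unfold mm
  rw [mul_max_of_nonneg _ _ hr, mul_max_of_nonneg _ _ hr, sub_nonpos, max_le_iff, max_le_iff]
  constructor
  · intro h
    have a0 := h 0 (by norm_num)
    have a1 := h 1 (by norm_num)
    have a2 := h 2 (by norm_num)
    simp only [add_zero, Nat.reduceAdd] at a0 a1 a2
    rw [t0] at a0
    rw [t1] at a1
    rw [t2] at a2
    refine ⟨?_, ?_, ?_⟩ <;> linarith
  · rintro ⟨a0, a1, a2⟩ s hs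
    interval_cases s
    · simp only [add_zero]
      rw [t0]; linarith
    · simp only [Nat.reduceAdd]
      rw [t1]; linarith
    · simp only [Nat.reduceAdd]
      rw [t2]; linarith

/-- The core circle of radius `11/2` lies outside the prism. -/
theorem mm_pos {e : ℂ} (he : e.re ^ 2 + e.im ^ 2 = 1) : 0 < (11 / 2 : ℝ) * mm e - 1 := by
  by_contra hc
  push Not at hc
  have h1 : mm e ≤ 2 / 11 := by linarith
  unfold mm at h1
  rw [max_le_iff, max_le_iff] at h1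
  obtain ⟨a0, a1, a2⟩ := h1
  set X := (11 / 2 : ℝ) * e.re with hX
  set Y := (11 / 2 : ℝ) * e.im with hY
  have hXY : X ^ 2 + Y ^ 2 = 121 / 4 := by rw [hX, hY]; nlinarith
  have b0 : 0 ≤ Y + 3 := by rw [hY]; linarith
  have b1 : 0 ≤ 5 - 2 * X - Y := by rw [hX, hY]; linarith
  have b2 : 0 ≤ 5 + 2 * X - Y := by rw [hX, hY]; linarith
  have b3 : 0 ≤ 5 - Y := by linarith
  nlinarith [mul_nonneg b1 b2, mul_nonneg b0 b3]

/-- Coefficients of the constraints along a ray. -/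
noncomputable def Ak (e : ℂ) (k : ℕ) : ℝ :=
  if k < 13 then (11 / 2 : ℝ) * ((pl k).1 * e.re + (pl k).2.1 * e.im) + (pl k).2.2.2
  else (11 / 2 : ℝ) * mm e - 1

noncomputable def Bk (e c : ℂ) (k : ℕ) : ℝ :=
  if k < 13 then c.re * ((pl k).1 * e.re + (pl k).2.1 * e.im) + (pl k).2.2.1 * c.im
  else c.re * mm e

/-- The point with direction `e` around the axis and polar coordinates `(τ, c)` around the core circle. -/
noncomputable def P3 (e c : ℂ) (τ : ℝ) : E3 :=
  ![(11 / 2 + τ * c.re) * e.re, (11 / 2 + τ * c.re) * e.im, τ * c.im]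

theorem lev_P3 (e c : ℂ) (τ : ℝ) {k : ℕ} (hk : k < 13) :
    lev (pl k) (P3 e c τ) = Ak e k + Bk e c k * τ := by
  simp only [lev, P3, Ak, Bk, if_pos hk, Matrix.cons_val_zero, Matrix.cons_val_one, Matrix.cons_val]
  ring

theorem mem_PH_P3 {e c : ℂ} {τ : ℝ} (hr : 0 ≤ 11 / 2 + τ * c.re) :
    P3 e c τ ∈ PH ↔ (∀ k < 14, 0 ≤ Ak e k + Bk e c k * τ) ∧ ∃ k < 14, Ak e k + Bk e c k * τ = 0 := by
  have hge := tunnel_ge (p := P3 e c τ) (e := e) hr rfl rfl
  have hle := tunnel_le (p := P3 e c τ) (e := e) hr rfl rfl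
  have e13 : Ak e 13 + Bk e c 13 * τ = (11 / 2 + τ * c.re) * mm e - 1 := by
    simp only [Ak, Bk, lt_self_iff_false, if_false]; ring
  unfold PH
  rw [mem_ofPred_eq, hge, hle]
  constructor
  · rintro ⟨h1, h2, h3⟩
    refine ⟨fun k hk => ?_, ?_⟩
    · rcases Nat.lt_succ_iff_lt_or_eq.mp hk with h | rfl
      · rw [← lev_P3 e c τ h]; exact h1 k h
      · rw [e13]; exact h2
    · rcases h3 with ⟨g, hg, h⟩ | h
      · exact ⟨g, by omega, by rw [← lev_P3 e c τ hg]; exact h⟩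
      · exact ⟨13, by norm_num, by rw [e13]; exact le_antisymm h h2⟩
  · rintro ⟨h1, k, hk, h2⟩
    refine ⟨fun g hg => ?_, ?_, ?_⟩
    · rw [lev_P3 e c τ hg]; exact h1 g (by omega)
    · rw [← e13]; exact h1 13 (by norm_num)
    · rcases Nat.lt_succ_iff_lt_or_eq.mp hk with h | rfl
      · exact Or.inl ⟨k, h, by rw [lev_P3 e c τ h]; exact h2⟩
      · right; rw [← e13, h2]

theorem core_chk : ∀ k < 13, 0 < (pl k).2.2.2 ∧
    121 * ((pl k).1 ^ 2 + (pl k).2.1 ^ 2) < 4 * (pl k).2.2.2 ^ 2 := by decide +kernel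

theorem Ak_pos {e : ℂ} (he : e.re ^ 2 + e.im ^ 2 = 1) : ∀ k < 14, 0 < Ak e k := by
  intro k hk
  rcases Nat.lt_succ_iff_lt_or_eq.mp hk with h | rfl
  · obtain ⟨h1, h2⟩ := core_chk k h
    simp only [Ak, if_pos h]
    have h1' : (0 : ℝ) < ((pl k).2.2.2 : ℝ) := by exact_mod_cast h1
    have h2' : (121 : ℝ) * (((pl k).1 : ℝ) ^ 2 + ((pl k).2.1 : ℝ) ^ 2) < 4 * ((pl k).2.2.2 : ℝ) ^ 2 := by
      exact_mod_cast h2
    generalize ((pl k).1 : ℝ) = a at h2' ⊢
    generalize ((pl k).2.1 : ℝ) = b at h2' ⊢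
    generalize ((pl k).2.2.2 : ℝ) = d at h1' h2' ⊢
    have h3 : (a * e.re + b * e.im) ^ 2 ≤ a ^ 2 + b ^ 2 := by
      have : (a * e.re + b * e.im) ^ 2 + (a * e.im - b * e.re) ^ 2 = a ^ 2 + b ^ 2 := by
        calc _ = (a ^ 2 + b ^ 2) * (e.re ^ 2 + e.im ^ 2) := by ring
          _ = _ := by rw [he, mul_one]
      nlinarith [sq_nonneg (a * e.im - b * e.re)]
    have h4 : ((11 / 2 : ℝ) * (a * e.re + b * e.im)) ^ 2 < d ^ 2 := by nlinarith
    have h5 := abs_lt_of_sq_lt_sq h4 h1'.le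
    have h6 := (abs_lt.mp h5).1
    linarith
  · simp only [Ak, lt_self_iff_false, if_false]
    exact mm_pos he

theorem K_box {p : E3} (h : ∀ g < 13, 0 ≤ lev (pl g) p) :
    (-20 ≤ p 0 ∧ p 0 ≤ 20) ∧ (-20 ≤ p 1 ∧ p 1 ≤ 20) ∧ (-20 ≤ p 2 ∧ p 2 ≤ 20) := by
  obtain ⟨⟨k0, k1, k2, k3, k4, k5⟩, k6, k7, k8, k9, k10, k11, k12⟩ := K_expl h
  refine ⟨⟨?_, ?_⟩, ⟨?_, ?_⟩, ?_, ?_⟩ <;> linarith

theorem Bk_neg {e c : ℂ} (he : e.re ^ 2 + e.im ^ 2 = 1) (hc : c.re ^ 2 + c.im ^ 2 = 1) :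
    ∃ k < 14, Bk e c k < 0 := by
  by_contra hcon
  push Not at hcon
  have hK : ∀ g < 13, 0 ≤ lev (pl g) (P3 e c 100) := by
    intro g hg
    rw [lev_P3 e c 100 hg]
    have h1 := Ak_pos he g (by omega)
    have h2 := hcon g (by omega)
    linarith
  obtain ⟨⟨a1, a2⟩, ⟨b1, b2⟩, d1, d2⟩ := K_box hK
  have q0 : (P3 e c 100 0) ^ 2 ≤ 400 := by nlinarith
  have q1 : (P3 e c 100 1) ^ 2 ≤ 400 := by nlinarith
  have q2 : (P3 e c 100 2) ^ 2 ≤ 400 := by nlinarith
  have e0 : P3 e c 100 0 = (11 / 2 + 100 * c.re) * e.re := rfl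
  have e1 : P3 e c 100 1 = (11 / 2 + 100 * c.re) * e.im := rfl
  have e2 : P3 e c 100 2 = 100 * c.im := rfl
  rw [e0] at q0
  rw [e1] at q1
  rw [e2] at q2
  have hs : ((11 / 2 + 100 * c.re) * e.re) ^ 2 + ((11 / 2 + 100 * c.re) * e.im) ^ 2
      = (11 / 2 + 100 * c.re) ^ 2 := by
    calc _ = (11 / 2 + 100 * c.re) ^ 2 * (e.re ^ 2 + e.im ^ 2) := by ring
      _ = _ := by rw [he, mul_one]
  have hc1 : -1 ≤ c.re := by nlinarith [sq_nonneg c.im]
  nlinarith

theorem ray_unique {e c : ℂ} (he : e.re ^ 2 + e.im ^ 2 = 1) {s t : ℝ} (hs : 0 ≤ s) (ht : 0 ≤ t)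
    (s1 : ∀ k < 14, 0 ≤ Ak e k + Bk e c k * s) (s2 : ∃ k < 14, Ak e k + Bk e c k * s = 0)
    (t1 : ∀ k < 14, 0 ≤ Ak e k + Bk e c k * t) (t2 : ∃ k < 14, Ak e k + Bk e c k * t = 0) : s = t := by
  rcases lt_trichotomy s t with h | h | h
  · exfalso
    obtain ⟨k, hk, h0⟩ := s2
    have h1 := Ak_pos he k hk
    have h2 : Bk e c k < 0 := by
      by_contra hc
      push Not at hc
      have := mul_nonneg hc hs
      linarith
    have h3 := t1 k hk
    nlinarith
  · exact h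
  · exfalso
    obtain ⟨k, hk, h0⟩ := t2
    have h1 := Ak_pos he k hk
    have h2 : Bk e c k < 0 := by
      by_contra hc
      push Not at hc
      have := mul_nonneg hc ht
      linarith
    have h3 := s1 k hk
    nlinarith

theorem ray_exists {e c : ℂ} (he : e.re ^ 2 + e.im ^ 2 = 1) (hc : c.re ^ 2 + c.im ^ 2 = 1) :
    ∃ t : ℝ, 0 < t ∧ (∀ k < 14, 0 ≤ Ak e k + Bk e c k * t) ∧ ∃ k < 14, Ak e k + Bk e c k * t = 0 := by
  classical
  obtain ⟨k0, hk0, hB0⟩ := Bk_neg he hc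
  let S := (Finset.range 14).filter (fun k => Bk e c k < 0)
  have hS : S.Nonempty := ⟨k0, by simp [S, hk0, hB0]⟩
  obtain ⟨m, hm, hmin⟩ := Finset.exists_min_image S (fun k => Ak e k / (-Bk e c k)) hS
  have hm' : m < 14 ∧ Bk e c m < 0 := by simpa [S] using hm
  have hA := Ak_pos he m hm'.1
  have hB : 0 < -Bk e c m := by linarith [hm'.2]
  refine ⟨Ak e m / (-Bk e c m), div_pos hA hB, ?_, m, hm'.1, ?_⟩
  · intro k hk
    have hAk := Ak_pos he k hk
    by_cases hBk : Bk e c k < 0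
    · have h1 := hmin k (by simp [S, hk, hBk])
      have hBk' : 0 < -Bk e c k := by linarith
      rw [le_div_iff₀ hBk'] at h1
      linarith
    · push Not at hBk
      have := mul_nonneg hBk (div_pos hA hB).le
      linarith
  · have hne : -Bk e c m ≠ 0 := hB.ne'
    have h1 : Ak e m / (-Bk e c m) * (-Bk e c m) = Ak e m := div_mul_cancel₀ _ hne
    linarith

/-- Normalisation of a nonzero complex number. -/
noncomputable def toC (w : ℂ) (h : w ≠ 0) : Circle :=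
  ⟨w / (‖w‖ : ℂ), by
    have h' : ‖w‖ ≠ 0 := norm_ne_zero_iff.mpr h
    simp [Submonoid.unitSphere, h']⟩

theorem toC_coe (w : ℂ) (h : w ≠ 0) : ((toC w h : Circle) : ℂ) = w / (‖w‖ : ℂ) := rfl

theorem sq_circle (z : Circle) : (z : ℂ).re ^ 2 + (z : ℂ).im ^ 2 = 1 := by
  have h := Circle.normSq_coe z
  rw [Complex.normSq_apply] at h
  nlinarith

/-- The horizontal part of a point. -/
noncomputable def hz (p : E3) : ℂ := ⟨p 0, p 1⟩

/-- The second coordinate of a point, relative to the core circle. -/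
noncomputable def sz (p : E3) : ℂ := ⟨‖hz p‖ - 11 / 2, p 2⟩

theorem eq_P3 {p : E3} (h : hz p ≠ 0) (h' : sz p ≠ 0) :
    p = P3 (toC (hz p) h) (toC (sz p) h') ‖sz p‖ := by
  have n1 : ‖hz p‖ ≠ 0 := norm_ne_zero_iff.mpr h
  have n2 : ‖sz p‖ ≠ 0 := norm_ne_zero_iff.mpr h'
  have a1 : ((toC (hz p) h : Circle) : ℂ).re = p 0 / ‖hz p‖ := by
    rw [toC_coe, Complex.div_ofReal_re]; rfl
  have a2 : ((toC (hz p) h : Circle) : ℂ).im = p 1 / ‖hz p‖ := by
    rw [toC_coe, Complex.div_ofReal_im]; rfl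
  have a3 : ((toC (sz p) h' : Circle) : ℂ).re = (‖hz p‖ - 11 / 2) / ‖sz p‖ := by
    rw [toC_coe, Complex.div_ofReal_re]; rfl
  have a4 : ((toC (sz p) h' : Circle) : ℂ).im = p 2 / ‖sz p‖ := by
    rw [toC_coe, Complex.div_ofReal_im]; rfl
  have a5 : 11 / 2 + ‖sz p‖ * ((toC (sz p) h' : Circle) : ℂ).re = ‖hz p‖ := by
    rw [a3]; field_simp; ring
  unfold P3
  rw [a5, a1, a2, a4]
  ext k
  fin_cases k
  · simp; field_simp
  · simp; field_simp
  · simp; field_simp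

theorem hz_ne {p : E3} (hp : p ∈ PH) : hz p ≠ 0 := by
  intro h
  have h0 : p 0 = 0 := congrArg Complex.re h
  have h1 : p 1 = 0 := congrArg Complex.im h
  obtain ⟨-, hs, -⟩ := hp
  have := (tunnel_ge (p := p) (e := 0) (r := 0) le_rfl (by simp [h0]) (by simp [h1])).mp hs
  norm_num at this

theorem sz_ne {p : E3} (hp : p ∈ PH) : sz p ≠ 0 := by
  intro h
  have h0 : ‖hz p‖ - 11 / 2 = 0 := congrArg Complex.re h
  have h2 : p 2 = 0 := congrArg Complex.im h
  have hn := hz_ne hp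
  have hr : ‖hz p‖ = 11 / 2 := by linarith
  have n1 : ‖hz p‖ ≠ 0 := norm_ne_zero_iff.mpr hn
  have a1 : ((toC (hz p) hn : Circle) : ℂ).re = p 0 / ‖hz p‖ := by
    rw [toC_coe, Complex.div_ofReal_re]; rfl
  have a2 : ((toC (hz p) hn : Circle) : ℂ).im = p 1 / ‖hz p‖ := by
    rw [toC_coe, Complex.div_ofReal_im]; rfl
  have hpe : p = P3 (toC (hz p) hn) 1 0 := by
    unfold P3
    rw [a1, a2, hr]
    ext k
    fin_cases k
    · simp; ring
    · simp; ring
    · simp [h2]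
  rw [hpe] at hp
  obtain ⟨-, k, hk, h⟩ := (mem_PH_P3 (by norm_num)).mp hp
  have := Ak_pos (sq_circle (toC (hz p) hn)) k hk
  rw [mul_zero, add_zero] at h
  exact this.ne' h

/-- The map to the torus. -/
noncomputable def Phi (p : PH) : Circle × Circle :=
  (toC (hz p) (hz_ne p.2), toC (sz p) (sz_ne p.2))

theorem cont_hz : Continuous hz := by
  have : hz = fun p : E3 => Complex.equivRealProdCLM.symm (p 0, p 1) := by
    ext p
    apply Complex.ext <;> simp [hz]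
  rw [this]
  fun_prop

theorem cont_sz : Continuous sz := by
  have : sz = fun p : E3 => Complex.equivRealProdCLM.symm (‖hz p‖ - 11 / 2, p 2) := by
    ext p
    apply Complex.ext <;> simp [sz]
  rw [this]
  have := cont_hz
  fun_prop

theorem cont_toC {X : Type} [TopologicalSpace X] {f : X → ℂ} (hf : Continuous f) (hn : ∀ x, f x ≠ 0) :
    Continuous fun x => toC (f x) (hn x) := by
  apply Continuous.subtype_mk
  apply Continuous.div hf
  · exact Complex.continuous_ofReal.comp hf.norm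
  · intro x
    exact_mod_cast norm_ne_zero_iff.mpr (hn x)

theorem cont_Phi : Continuous Phi := by
  apply Continuous.prodMk
  · exact cont_toC (cont_hz.comp continuous_subtype_val) (fun p => hz_ne p.2)
  · exact cont_toC (cont_sz.comp continuous_subtype_val) (fun p => sz_ne p.2)

theorem norm_eq_r {p : E3} (h' : sz p ≠ 0) :
    11 / 2 + ‖sz p‖ * ((toC (sz p) h' : Circle) : ℂ).re = ‖hz p‖ := by
  have n2 : ‖sz p‖ ≠ 0 := norm_ne_zero_iff.mpr h'
  have a3 : ((toC (sz p) h' : Circle) : ℂ).re = (‖hz p‖ - 11 / 2) / ‖sz p‖ := by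
    rw [toC_coe, Complex.div_ofReal_re]; rfl
  rw [a3]; field_simp; ring

theorem inj_Phi : Function.Injective Phi := by
  rintro ⟨p, hp⟩ ⟨q, hq⟩ h
  have h1 : toC (hz p) (hz_ne hp) = toC (hz q) (hz_ne hq) := congrArg Prod.fst h
  have h2 : toC (sz p) (sz_ne hp) = toC (sz q) (sz_ne hq) := congrArg Prod.snd h
  have ep := eq_P3 (hz_ne hp) (sz_ne hp)
  have eq := eq_P3 (hz_ne hq) (sz_ne hq)
  have rp : 0 ≤ 11 / 2 + ‖sz p‖ * ((toC (sz p) (sz_ne hp) : Circle) : ℂ).re := by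
    rw [norm_eq_r]; positivity
  have rq : 0 ≤ 11 / 2 + ‖sz q‖ * ((toC (sz q) (sz_ne hq) : Circle) : ℂ).re := by
    rw [norm_eq_r]; positivity
  have mp := hp
  rw [ep] at mp
  have mq := hq
  rw [eq] at mq
  obtain ⟨p1, p2⟩ := (mem_PH_P3 rp).mp mp
  obtain ⟨q1, q2⟩ := (mem_PH_P3 rq).mp mq
  rw [← h1, ← h2] at q1 q2
  have ht := ray_unique (sq_circle _) (norm_nonneg _) (norm_nonneg _) p1 p2 q1 q2
  apply Subtype.ext
  change p = q
  rw [ep, eq, h1, h2, ht]

theorem toC_of_smul {w : ℂ} (hw : w ≠ 0) {t : ℝ} (ht : 0 < t) (z : Circle) (h : w = (t : ℂ) * z) :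
    toC w hw = z := by
  apply Circle.ext
  rw [toC_coe, h]
  have hn : ‖(t : ℂ) * (z : ℂ)‖ = t := by
    rw [norm_mul, Circle.norm_coe, mul_one, Complex.norm_real, Real.norm_of_nonneg ht.le]
  rw [hn]
  have : (t : ℂ) ≠ 0 := by exact_mod_cast ht.ne'
  field_simp

theorem surj_Phi : Function.Surjective Phi := by
  rintro ⟨e, c⟩
  obtain ⟨t, ht, h1, h2⟩ := ray_exists (sq_circle e) (sq_circle c)
  have hM : 0 < mm (e : ℂ) := by
    have := mm_pos (sq_circle e)
    by_contra hc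
    push Not at hc
    linarith
  have h13 := h1 13 (by norm_num)
  have e13 : Ak (e : ℂ) 13 + Bk (e : ℂ) c 13 * t = (11 / 2 + t * (c : ℂ).re) * mm (e : ℂ) - 1 := by
    simp only [Ak, Bk, lt_self_iff_false, if_false]; ring
  rw [e13] at h13
  have hr : 0 < 11 / 2 + t * (c : ℂ).re := by
    by_contra hc
    push Not at hc
    have := mul_nonpos_of_nonpos_of_nonneg hc hM.le
    linarith
  have hmem : P3 (e : ℂ) (c : ℂ) t ∈ PH := (mem_PH_P3 hr.le).mpr ⟨h1, h2⟩
  refine ⟨⟨P3 e c t, hmem⟩, ?_⟩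
  have w1 : hz (P3 (e : ℂ) (c : ℂ) t) = ((11 / 2 + t * (c : ℂ).re : ℝ) : ℂ) * e := by
    apply Complex.ext
    · rw [Complex.re_ofReal_mul]; rfl
    · rw [Complex.im_ofReal_mul]; rfl
  have n1 : ‖hz (P3 (e : ℂ) (c : ℂ) t)‖ = 11 / 2 + t * (c : ℂ).re := by
    rw [w1, norm_mul, Circle.norm_coe, mul_one, Complex.norm_real, Real.norm_of_nonneg hr.le]
  have w2 : sz (P3 (e : ℂ) (c : ℂ) t) = (t : ℂ) * c := by
    apply Complex.ext
    · rw [Complex.re_ofReal_mul]
      change ‖hz (P3 (e : ℂ) (c : ℂ) t)‖ - 11 / 2 = _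
      rw [n1]; ring
    · rw [Complex.im_ofReal_mul]; rfl
  unfold Phi
  rw [toC_of_smul (hz_ne hmem) hr e w1, toC_of_smul (sz_ne hmem) ht c w2]

theorem compact_FS (i : ℕ) : IsCompact (FS i) := by
  have hfin : (VS i).Finite := by
    apply Set.Finite.image
    exact List.finite_toSet (fc i)
  exact hfin.isCompact_convexHull (𝕜 := ℝ)

theorem compact_PH : IsCompact PH := by
  rw [← PH_eq]
  exact isCompact_iUnion fun i => compact_FS i

theorem torus_PH : Nonempty ((⋃ i : Fin 16, FS i : Set E3) ≃ₜ (Circle × Circle)) := by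
  have : CompactSpace PH := isCompact_iff_compactSpace.mp compact_PH
  rw [PH_eq]
  exact ⟨Continuous.homeoOfEquivCompactToT2 (f := Equiv.ofBijective Phi ⟨inj_Phi, surj_Phi⟩) cont_Phi⟩

/-- **Disproof of Barnette's conjecture on toroidal polyhedra.** There is a toroidal polyhedron with sixteen
faces whose faces have no proper colouring with four colours. -/
theorem result : ∃ F : Fin 16 → Set E3, IsToroidalPolyhedron F ∧ ¬ FaceColourable F 4 := by
  refine ⟨fun i => FS i, ⟨inferInstance, fun i => polygon_FS i.2, ?_, ?_, ?_, ?_, torus_PH⟩, not_colourable⟩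
  · intro i j hij
    exact FS_ne i.2 j.2 (fun h => hij (Fin.ext h))
  · intro i j hij
    exact meet_FS i.2 j.2 (fun h => hij (Fin.ext h))
  · intro i T hT
    obtain ⟨j, hj, hij, hjT, huni⟩ := edge_unique i.2 hT
    refine ⟨⟨j, hj⟩, ⟨fun h => hij (congrArg Fin.val h).symm, hjT⟩, ?_⟩
    rintro k ⟨hk1, hk2⟩
    exact Fin.ext (huni k k.2 (fun h => hk1 (Fin.ext h).symm) hk2)
  · intro i j hij _
    exact not_coplanar_FS i.2 j.2 (fun h => hij (Fin.ext h))

end Pool.Agent.Results.MP_c9efbf_co.FiveColours
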